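import Mathlib

set_option autoImplicit false

namespace Pool.Agent.Results.MP_2da123_co.DimSix

open Set Polynomial Filter Topology

/-- `P` is a convex polytope of dimension `d` in `ℝ^d` and `H` is its graph: `P` is the convex hull
of a finite set and has interior points, `p` maps the vertices of `H` bijectively onto the
vertices (extreme points) of `P`, and two vertices of `H` are adjacent exactly when they are
distinct and the segment joining their images is a face (exposed subset) of `P`. -/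
def IsGraphOf (d : ℕ) {U : Type} (H : SimpleGraph U) (P : Set (EuclideanSpace ℝ (Fin d)))
    (p : U → EuclideanSpace ℝ (Fin d)) : Prop :=
  (∃ S : Finset (EuclideanSpace ℝ (Fin d)), P = convexHull ℝ (S : Set _)) ∧
  (interior P).Nonempty ∧ Function.Injective p ∧ range p = P.extremePoints ℝ ∧
  ∀ u v, H.Adj u v ↔ u ≠ v ∧ IsExposed ℝ P (segment ℝ (p u) (p v))

/-- `H` is isomorphic to the graph of some `d`-polytope. -/
def IsPolytopal (d : ℕ) {U : Type} (H : SimpleGraph U) : Prop :=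
  ∃ P p, IsGraphOf d H P p

/-- The join `G + K_n` on the vertex set `V ⊕ Fin n`: two distinct vertices are adjacent unless
both lie in `V` and are not adjacent in `G`. -/
def joinComplete {V : Type} (G : SimpleGraph V) (n : ℕ) : SimpleGraph (V ⊕ Fin n) where
  Adj x y := x ≠ y ∧ ∀ u v, x = Sum.inl u → y = Sum.inl v → G.Adj u v
  symm := ⟨fun _ _ h => ⟨h.1.symm, fun u v hx hy => (h.2 v u hy hx).symm⟩⟩
  loopless := ⟨fun _ h => h.1 rfl⟩

section geometry

variable {d : ℕ} {U : Type} {E : Type} [NormedAddCommGroup E] [InnerProductSpace ℝ E]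

theorem exposed_segment (p : U → E) (u v : U) (l : E →L[ℝ] ℝ) (b : ℝ)
    (hu : l (p u) + b = 0) (hv : l (p v) + b = 0)
    (hw : ∀ w, w ≠ u → w ≠ v → 0 < l (p w) + b) :
    IsExposed ℝ (convexHull ℝ (range p)) (segment ℝ (p u) (p v)) := by
  have hseg : ∀ x ∈ segment ℝ (p u) (p v), l x + b = 0 := by
    rintro x ⟨s, t, hs, ht, hst, rfl⟩
    have h1 : l (p u) = -b := by linarith
    have h2 : l (p v) = -b := by linarith
    simp only [map_add, map_smul, smul_eq_mul, h1, h2]
    have : s = 1 - t := by linarith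
    rw [this]; ring
  have hC : Convex ℝ {x : E | 0 ≤ l x + b ∧ (l x + b = 0 → x ∈ segment ℝ (p u) (p v))} := by
    intro x hx y hy s t hs ht hst
    have hval : l (s • x + t • y) + b = s * (l x + b) + t * (l y + b) := by
      simp only [map_add, map_smul, smul_eq_mul]
      have : b = (s + t) * b := by rw [hst, one_mul]
      linear_combination this
    have hx0 := hx.1
    have hy0 := hy.1
    refine ⟨?_, ?_⟩
    · rw [hval]
      positivity
    · intro h0
      rw [hval] at h0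
      have h1 : s * (l x + b) = 0 := by nlinarith [mul_nonneg hs hx0, mul_nonneg ht hy0]
      have h2 : t * (l y + b) = 0 := by nlinarith [mul_nonneg hs hx0, mul_nonneg ht hy0]
      rcases eq_or_lt_of_le hs with hs0 | hs0
      · have : t = 1 := by linarith
        subst this
        rw [← hs0]
        simp only [zero_smul, one_smul, zero_add]
        exact hy.2 (by simpa using h2)
      · rcases eq_or_lt_of_le ht with ht0 | ht0
        · have : s = 1 := by linarith
          subst this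
          rw [← ht0]
          simp only [zero_smul, one_smul, add_zero]
          exact hx.2 (by simpa using h1)
        · have hx' := hx.2 ((mul_eq_zero.1 h1).resolve_left hs0.ne')
          have hy' := hy.2 ((mul_eq_zero.1 h2).resolve_left ht0.ne')
          exact (convex_segment _ _) hx' hy' hs ht hst
  have hsub : convexHull ℝ (range p) ⊆
      {x : E | 0 ≤ l x + b ∧ (l x + b = 0 → x ∈ segment ℝ (p u) (p v))} := by
    apply convexHull_min _ hC
    rintro _ ⟨w, rfl⟩
    by_cases hwu : w = u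
    · subst hwu
      exact ⟨hu.ge, fun _ => left_mem_segment ℝ _ _⟩
    by_cases hwv : w = v
    · subst hwv
      exact ⟨hv.ge, fun _ => right_mem_segment ℝ _ _⟩
    · exact ⟨(hw w hwu hwv).le, fun h => absurd h (hw w hwu hwv).ne'⟩
  have hsegsub : segment ℝ (p u) (p v) ⊆ convexHull ℝ (range p) :=
    segment_subset_convexHull (mem_range_self u) (mem_range_self v)
  intro _
  refine ⟨-l, ?_⟩
  ext x
  constructor
  · intro hx
    refine ⟨hsegsub hx, fun y hy => ?_⟩
    have h1 := hseg x hx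
    have h2 := (hsub hy).1
    simp only [_root_.neg_apply]
    linarith
  · rintro ⟨hx, hmax⟩
    apply (hsub hx).2
    have h1 := hmax (p u) (subset_convexHull ℝ _ (mem_range_self u))
    simp only [_root_.neg_apply] at h1
    have h2 := (hsub hx).1
    linarith

theorem extremePoints_eq (p : U → E)
    (h : ∀ u, ∃ (l : E →L[ℝ] ℝ) (b : ℝ), l (p u) + b = 0 ∧ ∀ w, w ≠ u → 0 < l (p w) + b) :
    range p = (convexHull ℝ (range p)).extremePoints ℝ := by
  apply Subset.antisymm _ extremePoints_convexHull_subset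
  rintro _ ⟨u, rfl⟩
  obtain ⟨l, b, hu, hw⟩ := h u
  have := exposed_segment p u u l b hu hu (fun w hw1 _ => hw w hw1)
  rw [segment_same] at this
  exact isExtreme_singleton.1 this.isExtreme

theorem not_exposed [Fintype U] (p : U → E) (hp : Function.Injective p)
    (hext : range p = (convexHull ℝ (range p)).extremePoints ℝ) (u v w : U)
    (hwu : w ≠ u) (hwv : w ≠ v) (a b : ℝ) (c : U → ℝ) (hc : ∀ x, 0 ≤ c x)
    (hcw : 0 < c w) (hsum : ∑ x, c x = a + b) (hcomb : a • p u + b • p v = ∑ x, c x • p x) :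
    ¬ IsExposed ℝ (convexHull ℝ (range p)) (segment ℝ (p u) (p v)) := by
  intro hexp
  have hext2 : ∀ x, p x ∈ segment ℝ (p u) (p v) → x = u ∨ x = v := by
    intro x hx
    have h1 : p x ∈ (convexHull ℝ (range p)).extremePoints ℝ := by
      rw [← hext]; exact mem_range_self x
    have hu : p u ∈ convexHull ℝ (range p) := subset_convexHull ℝ _ (mem_range_self u)
    have hv : p v ∈ convexHull ℝ (range p) := subset_convexHull ℝ _ (mem_range_self v)
    rcases (mem_extremePoints_iff_forall_segment.1 h1).2 _ hu _ hv hx with h | h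
    · exact Or.inl (hp h.symm)
    · exact Or.inr (hp h.symm)
  obtain ⟨l, hl⟩ := hexp ⟨p u, left_mem_segment ℝ _ _⟩
  have hu := left_mem_segment ℝ (p u) (p v)
  have hv := right_mem_segment ℝ (p u) (p v)
  rw [hl] at hu hv
  have huv : l (p u) = l (p v) := le_antisymm (hv.2 _ hu.1) (hu.2 _ hv.1)
  have hle : ∀ x, l (p x) ≤ l (p u) := fun x =>
    hu.2 _ (subset_convexHull ℝ _ (mem_range_self x))
  have hl2 : a * l (p u) + b * l (p v) = ∑ x, c x * l (p x) := by
    have := congrArg l hcomb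
    simpa only [map_add, map_smul, smul_eq_mul, map_sum] using this
  have hzero : ∑ x, c x * (l (p u) - l (p x)) = 0 := by
    have : ∑ x, c x * (l (p u) - l (p x)) = (∑ x, c x) * l (p u) - ∑ x, c x * l (p x) := by
      rw [Finset.sum_mul, ← Finset.sum_sub_distrib]
      exact Finset.sum_congr rfl fun x _ => by ring
    rw [this, hsum, ← hl2, ← huv]; ring
  have hall := (Finset.sum_eq_zero_iff_of_nonneg
    (fun x _ => mul_nonneg (hc x) (sub_nonneg.2 (hle x)))).1 hzero w (Finset.mem_univ w)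
  have hlw : l (p w) = l (p u) := by
    rcases mul_eq_zero.1 hall with h | h
    · exact absurd h hcw.ne'
    · linarith
  have hmem : p w ∈ segment ℝ (p u) (p v) := by
    rw [hl]
    refine ⟨subset_convexHull ℝ _ (mem_range_self w), fun y hy => ?_⟩
    rw [hlw]
    exact hu.2 y hy
  rcases hext2 w hmem with h | h
  · exact hwu h
  · exact hwv h

end geometry

section functionals

/-- The point of `ℝ^6` with coordinates `L X, ..., L X^6`. -/
noncomputable def pt (L : ℝ[X] →ₗ[ℝ] ℝ) : EuclideanSpace ℝ (Fin 6) :=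
  WithLp.toLp 2 fun k : Fin 6 => L (X ^ (k.val + 1))

noncomputable def fl (f : ℝ[X]) : EuclideanSpace ℝ (Fin 6) →L[ℝ] ℝ :=
  ∑ k : Fin 6, f.coeff (k.val + 1) • EuclideanSpace.proj k

theorem expand (f : ℝ[X]) (hf : f.natDegree ≤ 6) (L : ℝ[X] →ₗ[ℝ] ℝ) :
    L f = f.coeff 0 * L 1 + ∑ k : Fin 6, f.coeff (k.val + 1) * L (X ^ (k.val + 1)) := by
  have h := f.as_sum_range_C_mul_X_pow' (show f.natDegree < 7 by omega)
  conv_lhs => rw [h]
  rw [map_sum, Finset.sum_range_succ', Fin.sum_univ_eq_sum_range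
    (fun k => f.coeff (k + 1) * L (X ^ (k + 1))) 6, add_comm]
  congr 1
  · rw [pow_zero, mul_one, ← mul_one (C (f.coeff 0)), ← smul_eq_C_mul, map_smul, smul_eq_mul]
  · refine Finset.sum_congr rfl fun k _ => ?_
    rw [← smul_eq_C_mul, map_smul, smul_eq_mul]

theorem fl_pt (f : ℝ[X]) (hf : f.natDegree ≤ 6) (L : ℝ[X] →ₗ[ℝ] ℝ) (hL : L 1 = 1) :
    fl f (pt L) + f.coeff 0 = L f := by
  rw [expand f hf L, hL, mul_one, add_comm]
  congr 1

theorem polytopal_of_functionals {U : Type} [Fintype U] (H : SimpleGraph U)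
    (L : U → ℝ[X] →ₗ[ℝ] ℝ) (h1 : ∀ u, L u 1 = 1) (hne : Nonempty U)
    (hspan : ∀ f : ℝ[X], f.natDegree ≤ 6 → (∀ u, L u f = 0) → f = 0)
    (hV : ∀ u, ∃ f : ℝ[X], f.natDegree ≤ 6 ∧ L u f = 0 ∧ ∀ w, w ≠ u → 0 < L w f)
    (hE : ∀ u v, H.Adj u v → ∃ f : ℝ[X], f.natDegree ≤ 6 ∧ L u f ≤ 0 ∧ L v f ≤ 0 ∧
      ∀ w, w ≠ u → w ≠ v → 0 < L w f)
    (hN : ∀ u v, u ≠ v → ¬ H.Adj u v → ∃ (a b : ℝ) (c : U → ℝ) (w : U), w ≠ u ∧ w ≠ v ∧
      (∀ x, 0 ≤ c x) ∧ 0 < c w ∧
      ∀ f : ℝ[X], f.natDegree ≤ 6 → a * L u f + b * L v f = ∑ x, c x * L x f) :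
    IsPolytopal 6 H := by
  classical
  set p : U → EuclideanSpace ℝ (Fin 6) := fun u => pt (L u) with hp
  have hinj : Function.Injective p := by
    intro u w huw
    by_contra hne
    obtain ⟨f, hf, h0, hpos⟩ := hV u
    have h2 := hpos w (Ne.symm hne)
    rw [← fl_pt f hf _ (h1 w)] at h2
    rw [← fl_pt f hf _ (h1 u)] at h0
    have : pt (L u) = pt (L w) := huw
    rw [this] at h0
    linarith
  have hext : range p = (convexHull ℝ (range p)).extremePoints ℝ := by
    apply extremePoints_eq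
    intro u
    obtain ⟨f, hf, h0, hpos⟩ := hV u
    refine ⟨fl f, f.coeff 0, ?_, fun w hw => ?_⟩
    · rw [hp, fl_pt f hf _ (h1 u), h0]
    · rw [hp, fl_pt f hf _ (h1 w)]
      exact hpos w hw
  refine ⟨convexHull ℝ (range p), p, ⟨(finite_range p).toFinset, by simp⟩, ?_, hinj, hext, ?_⟩
  · rw [interior_convexHull_nonempty_iff_affineSpan_eq_top]
    obtain ⟨u0⟩ := hne
    have hnonempty : (affineSpan ℝ (range p) : Set _).Nonempty :=
      ⟨p u0, subset_affineSpan ℝ _ (mem_range_self u0)⟩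
    by_contra hcon
    have hdir : (affineSpan ℝ (range p)).direction < ⊤ := by
      rw [lt_top_iff_ne_top]
      intro hd
      exact hcon ((AffineSubspace.direction_eq_top_iff_of_nonempty hnonempty).1 hd)
    obtain ⟨g, hg0, hg⟩ := Submodule.exists_le_ker_of_lt_top _ hdir
    have hconst : ∀ u, g (p u) = g (p u0) := by
      intro u
      have : p u -ᵥ p u0 ∈ (affineSpan ℝ (range p)).direction :=
        AffineSubspace.vsub_mem_direction (subset_affineSpan ℝ _ (mem_range_self u))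
          (subset_affineSpan ℝ _ (mem_range_self u0))
      have h2 := hg this
      rw [LinearMap.mem_ker, vsub_eq_sub, map_sub] at h2
      linarith
    -- the polynomial of g
    let f : ℝ[X] := (∑ k : Fin 6, C (g (EuclideanSpace.single k 1)) * X ^ (k.val + 1)) -
      C (g (p u0))
    have hfdeg : f.natDegree ≤ 6 := by
      refine (natDegree_sub_le _ _).trans (max_le ?_ (by simp))
      refine natDegree_sum_le_of_forall_le _ _ fun k _ => ?_
      refine (natDegree_C_mul_X_pow_le _ _).trans ?_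
      have := k.isLt
      omega
    have hgL : ∀ u, L u f = 0 := by
      intro u
      have hval : g (p u) = ∑ k : Fin 6, g (EuclideanSpace.single k 1) * L u (X ^ (k.val + 1)) := by
        have hdec : p u = ∑ k : Fin 6, (L u (X ^ (k.val + 1))) • EuclideanSpace.single k (1 : ℝ) := by
          ext j
          simp [hp, pt, Finset.sum_apply, Pi.single_apply]
        conv_lhs => rw [hdec]
        rw [map_sum]
        exact Finset.sum_congr rfl fun k _ => by rw [map_smul, smul_eq_mul, mul_comm]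
      have : L u f = g (p u) - g (p u0) := by
        simp only [f, map_sub, map_sum]
        rw [hval]
        congr 1
        · exact Finset.sum_congr rfl fun k _ => by rw [← smul_eq_C_mul, map_smul, smul_eq_mul]
        · rw [← mul_one (C (g (p u0))), ← smul_eq_C_mul, map_smul, h1, smul_eq_mul, mul_one]
      rw [this, hconst u, sub_self]
    have hf0 := hspan f hfdeg hgL
    apply hg0
    apply LinearMap.ext
    intro x
    have hcoef : ∀ k : Fin 6, g (EuclideanSpace.single k 1) = 0 := by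
      intro k
      have : f.coeff (k.val + 1) = 0 := by rw [hf0]; simp
      rw [← this]
      simp only [f, coeff_sub, finsetSum_coeff, coeff_C_mul, coeff_X_pow, coeff_C]
      rw [Finset.sum_eq_single k]
      · simp
      · intro j _ hj
        have h3 : ¬ (k.val = j.val) := fun h => hj (Fin.ext h.symm)
        simp [h3]
      · simp
    have hdec : x = ∑ k : Fin 6, (x k) • EuclideanSpace.single k (1 : ℝ) := by
      ext j
      simp [Finset.sum_apply, Pi.single_apply]
    rw [hdec, map_sum]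
    simp [hcoef]
  · intro u v
    constructor
    · intro huv
      refine ⟨huv.ne, ?_⟩
      obtain ⟨f0, hf0, hu0, hv0, hw0⟩ := hE u v huv
      obtain ⟨Fu, hFu, hFu0, hFuw⟩ := hV u
      obtain ⟨Fv, hFv, hFv0, hFvw⟩ := hV v
      have hFuv : 0 < L v Fu := hFuw v huv.ne'
      have hFvu : 0 < L u Fv := hFvw u huv.ne
      let α : ℝ := -(L u f0) / L u Fv
      let β : ℝ := -(L v f0) / L v Fu
      have hα : 0 ≤ α := div_nonneg (by linarith) hFvu.le
      have hβ : 0 ≤ β := div_nonneg (by linarith) hFuv.le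
      obtain ⟨f, hf, hu, hv, hw⟩ : ∃ f : ℝ[X], f.natDegree ≤ 6 ∧ L u f = 0 ∧ L v f = 0 ∧
          ∀ w, w ≠ u → w ≠ v → 0 < L w f := by
        refine ⟨f0 + α • Fv + β • Fu, ?_, ?_, ?_, fun w hwu hwv => ?_⟩
        · refine (natDegree_add_le _ _).trans (max_le ((natDegree_add_le _ _).trans
            (max_le hf0 ((natDegree_smul_le _ _).trans hFv))) ((natDegree_smul_le _ _).trans hFu))
        · simp only [map_add, map_smul, smul_eq_mul, hFu0, mul_zero, add_zero, α]
          field_simp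
          ring
        · simp only [map_add, map_smul, smul_eq_mul, hFv0, mul_zero, add_zero, β]
          field_simp
          ring
        · have h1 := hw0 w hwu hwv
          have h2 := hFuw w hwu
          have h3 := hFvw w hwv
          simp only [map_add, map_smul, smul_eq_mul]
          positivity
      refine exposed_segment p u v (fl f) (f.coeff 0) ?_ ?_ fun w hwu hwv => ?_
      · rw [hp, fl_pt f hf _ (h1 u), hu]
      · rw [hp, fl_pt f hf _ (h1 v), hv]
      · rw [hp, fl_pt f hf _ (h1 w)]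
        exact hw w hwu hwv
    · rintro ⟨hne, hexp⟩
      by_contra hadj
      obtain ⟨a, b, c, w, hwu, hwv, hc, hcw, hcomb⟩ := hN u v hne hadj
      refine not_exposed p hinj hext u v w hwu hwv a b c hc hcw ?_ ?_ hexp
      · have := hcomb 1 (by simp)
        simp only [h1, mul_one] at this
        exact this.symm
      · ext k
        have := hcomb (X ^ (k.val + 1)) (by
          rw [natDegree_X_pow]
          have := k.isLt
          omega)
        simpa [hp, pt, Finset.sum_apply] using this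

end functionals

theorem exists_div (M : ℝ[X]) (hM : M ≠ 0) (z : ℝ) (hz : M.eval z = 0) (D : ℝ[X] →ₗ[ℝ] ℝ) :
    ∃ d : ℝ[X] →ₗ[ℝ] ℝ, d 1 = 0 ∧ ∀ g, d (M * g) = D g := by
  obtain ⟨φ, hφ⟩ := (LinearMap.mulLeft ℝ M).exists_leftInverse_of_injective (by
    rw [LinearMap.ker_eq_bot]
    exact fun a b h => mul_left_cancel₀ hM h)
  refine ⟨D ∘ₗ φ - (D (φ 1)) • leval z, by simp, fun g => ?_⟩
  have h : φ (M * g) = g := LinearMap.congr_fun hφ g
  simp [h, hz]

theorem quadrature (s : Finset ℝ) (hs : s.card = 7) (Λ : ℝ[X] →ₗ[ℝ] ℝ)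
    (hpos : ∀ w ∈ s, ∃ B : ℝ[X], B.natDegree ≤ 6 ∧ 0 < B.eval w ∧
      (∀ w' ∈ s, w' ≠ w → B.eval w' = 0) ∧ 0 < Λ B) :
    ∃ c : ℝ → ℝ, (∀ w ∈ s, 0 < c w) ∧
      ∀ f : ℝ[X], f.natDegree ≤ 6 → Λ f = ∑ w ∈ s, c w * f.eval w := by
  have hkey : ∀ f : ℝ[X], f.natDegree ≤ 6 →
      Λ f = ∑ w ∈ s, Λ (Lagrange.basis s id w) * f.eval w := by
    intro f hf
    have hdeg : f.degree < s.card := by
      rw [hs]
      exact lt_of_le_of_lt degree_le_natDegree (by exact_mod_cast Nat.lt_succ_of_le hf)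
    have h := Lagrange.eq_interpolate (v := id) (s := s) (Set.injOn_id _) hdeg
    rw [Lagrange.interpolate_apply] at h
    conv_lhs => rw [h]
    rw [map_sum]
    refine Finset.sum_congr rfl fun w _ => ?_
    rw [← smul_eq_C_mul, map_smul, smul_eq_mul, mul_comm]
    rfl
  refine ⟨fun w => Λ (Lagrange.basis s id w), fun w hw => ?_, hkey⟩
  obtain ⟨B, hB, hBw, hB0, hΛ⟩ := hpos w hw
  rw [hkey B hB, Finset.sum_eq_single w] at hΛ
  · exact (mul_pos_iff_of_pos_right hBw).1 hΛ
  · intro w' hw' hne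
    rw [hB0 w' hw' hne, mul_zero]
  · intro h; exact absurd hw h

/-- `(X - v)^2 - τ^2`. -/
noncomputable def Mq (v τ : ℝ) : ℝ[X] := (X - C v) ^ 2 - C (τ ^ 2)

theorem Mq_eval (v τ x : ℝ) : (Mq v τ).eval x = (x - v) ^ 2 - τ ^ 2 := by simp [Mq]

theorem Mq_natDegree (v τ : ℝ) : (Mq v τ).natDegree ≤ 2 := by
  unfold Mq
  refine (natDegree_sub_le _ _).trans (max_le ?_ (by simp))
  refine natDegree_pow_le.trans ?_
  rw [natDegree_X_sub_C]

theorem sqf_natDegree (w : ℝ) : ((X - C w : ℝ[X]) ^ 2).natDegree ≤ 2 := by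
  refine natDegree_pow_le.trans ?_
  rw [natDegree_X_sub_C]

theorem Mq_ne_zero (v τ : ℝ) (hτ : 0 < τ) : Mq v τ ≠ 0 := by
  intro h
  have := Mq_eval v τ v
  rw [h] at this
  simp at this
  exact hτ.ne' this

noncomputable def Le (v τ : ℝ) (d : ℝ[X] →ₗ[ℝ] ℝ) (ε : ℝ) : ℝ[X] →ₗ[ℝ] ℝ :=
  (1 / 2 : ℝ) • (leval (v - τ) + leval (v + τ)) + ε • d

theorem Le_apply (v τ : ℝ) (d : ℝ[X] →ₗ[ℝ] ℝ) (ε : ℝ) (f : ℝ[X]) :
    Le v τ d ε f = (f.eval (v - τ) + f.eval (v + τ)) / 2 + ε * d f := by
  simp [Le]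
  ring

theorem Le_pos (v τ : ℝ) (d : ℝ[X] →ₗ[ℝ] ℝ) (f : ℝ[X])
    (h : 0 < f.eval (v - τ) + f.eval (v + τ)) : ∀ᶠ ε in 𝓝[>] (0 : ℝ), 0 < Le v τ d ε f := by
  have hc : Tendsto (fun ε : ℝ => (f.eval (v - τ) + f.eval (v + τ)) / 2 + ε * d f) (𝓝[>] 0)
      (𝓝 ((f.eval (v - τ) + f.eval (v + τ)) / 2 + 0 * d f)) := by
    apply Tendsto.mono_left _ nhdsWithin_le_nhds
    apply Continuous.tendsto
    fun_prop
  have hpos : 0 < (f.eval (v - τ) + f.eval (v + τ)) / 2 + 0 * d f := by
    rw [zero_mul, add_zero]; exact half_pos h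
  filter_upwards [hc.eventually (lt_mem_nhds hpos)] with ε hε
  rw [Le_apply]; exact hε

theorem Le_M (v τ : ℝ) (d D : ℝ[X] →ₗ[ℝ] ℝ) (hd : ∀ g, d (Mq v τ * g) = D g) (ε : ℝ) (g : ℝ[X]) :
    Le v τ d ε (Mq v τ * g) = ε * D g := by
  rw [Le_apply, hd]
  simp [Mq_eval]

theorem level2 {V : Type} [Fintype V] [DecidableEq V] (G : SimpleGraph V) (v : V → ℝ) (τ : ℝ)
    (hτ : 0 < τ) (T : Finset ℝ) (D : V → ℝ[X] →ₗ[ℝ] ℝ)
    (hm : ∀ i, v i - τ ∈ T) (hp : ∀ i, v i + τ ∈ T)
    (hM : ∀ i, ∀ w ∈ T, w ≠ v i - τ → w ≠ v i + τ → 0 < (w - v i) ^ 2 - τ ^ 2)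
    (hd : ∀ i j, i ≠ j → v i - τ ≠ v j - τ ∧ v i - τ ≠ v j + τ ∧ v i + τ ≠ v j + τ)
    (hT : 7 ≤ T.card)
    (h1 : ∀ i, 0 < D i 1)
    (h2 : ∀ i, ∀ w ∈ T, w ≠ v i - τ → w ≠ v i + τ →
      ∃ s, s ∉ T ∧ D i ((X - C w) ^ 2 * (X - C s) ^ 2) < 0)
    (h3 : ∀ i j, G.Adj i j → ∃ q : ℝ[X], q.natDegree ≤ 2 ∧ (∀ w ∈ T, 0 < q.eval w) ∧
      D i (Mq (v j) τ * q) < 0 ∧ D j (Mq (v i) τ * q) < 0)
    (h4 : ∀ i j, i ≠ j → ¬ G.Adj i j → ∃ a b : ℝ, 0 < a ∧ 0 < b ∧ ∃ N : Finset ℝ, N ⊆ T ∧
      N.card = 3 ∧ (∀ w ∈ N, (w ≠ v i - τ ∧ w ≠ v i + τ) ∧ (w ≠ v j - τ ∧ w ≠ v j + τ)) ∧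
      ∀ w ∈ N, ∃ q : ℝ[X], q.natDegree ≤ 2 ∧ 0 < q.eval w ∧
        (∀ w' ∈ N, w' ≠ w → q.eval w' = 0) ∧
        0 < a * D i (Mq (v j) τ * q) + b * D j (Mq (v i) τ * q)) :
    ∃ n ≥ 1, IsPolytopal 6 (joinComplete G n) := by
  classical
  have hdiv : ∀ i, ∃ d : ℝ[X] →ₗ[ℝ] ℝ, d 1 = 0 ∧ ∀ g, d (Mq (v i) τ * g) = D i g := fun i =>
    exists_div _ (Mq_ne_zero (v i) τ hτ) (v i + τ) (by rw [Mq_eval]; ring) (D i)
  choose d hd1 hdM using hdiv
  have hMT : ∀ i, ∀ w ∈ T, 0 ≤ (Mq (v i) τ).eval w := by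
    intro i w hw
    rw [Mq_eval]
    by_cases h1 : w = v i - τ
    · subst h1; exact le_of_eq (by ring)
    by_cases h2 : w = v i + τ
    · subst h2; exact le_of_eq (by ring)
    exact (hM i w hw h1 h2).le
  have hdd : ∀ i j, i ≠ j → v j - τ ≠ v i - τ ∧ v j - τ ≠ v i + τ ∧ v j + τ ≠ v i - τ ∧
      v j + τ ≠ v i + τ := fun i j hij =>
    ⟨(hd i j hij).1.symm, (hd j i hij.symm).2.1, (hd i j hij).2.1.symm, (hd i j hij).2.2.symm⟩
  have hMj : ∀ i j, i ≠ j → 0 < (Mq (v i) τ).eval (v j - τ) ∧ 0 < (Mq (v i) τ).eval (v j + τ) := by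
    intro i j hij
    obtain ⟨a1, a2, a3, a4⟩ := hdd i j hij
    rw [Mq_eval, Mq_eval]
    exact ⟨hM i _ (hm j) a1 a2, hM i _ (hp j) a3 a4⟩
  -- vertex functionals of W
  have e1 : ∀ᶠ ε in 𝓝[>] (0 : ℝ), ∀ i, ∀ w ∈ T, 0 < Le (v i) τ (d i) ε ((X - C w) ^ 2) := by
    rw [eventually_all]
    intro i
    rw [Filter.eventually_all_finset]
    intro w _
    apply Le_pos
    simp only [eval_pow, eval_sub, eval_X, eval_C]
    nlinarith [sq_nonneg (v i - w), sq_nonneg (v i - τ - w + (v i + τ - w)), hτ, mul_pos hτ hτ]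
  -- edges within W
  have e2 : ∀ w ∈ T, ∀ w' ∈ T, w ≠ w' → ∃ f : ℝ[X], f.natDegree ≤ 6 ∧ f.eval w = 0 ∧
      f.eval w' = 0 ∧ (∀ u ∈ T, u ≠ w → u ≠ w' → 0 < f.eval u) ∧
      ∀ᶠ ε in 𝓝[>] (0 : ℝ), ∀ i, 0 < Le (v i) τ (d i) ε f := by
    intro w hw w' hw' hne
    by_cases hcase : ∃ i0, (w = v i0 - τ ∧ w' = v i0 + τ) ∨ (w = v i0 + τ ∧ w' = v i0 - τ)
    · obtain ⟨i0, hi0⟩ := hcase
      refine ⟨Mq (v i0) τ, (Mq_natDegree _ _).trans (by norm_num), ?_, ?_, ?_, ?_⟩
      · rw [Mq_eval]; rcases hi0 with ⟨h, _⟩ | ⟨h, _⟩ <;> subst h <;> ring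
      · rw [Mq_eval]; rcases hi0 with ⟨_, h⟩ | ⟨_, h⟩ <;> subst h <;> ring
      · intro u hu hu1 hu2
        rw [Mq_eval]
        rcases hi0 with ⟨h, h'⟩ | ⟨h, h'⟩
        · exact hM i0 u hu (h ▸ hu1) (h' ▸ hu2)
        · exact hM i0 u hu (h' ▸ hu2) (h ▸ hu1)
      · rw [eventually_all]
        intro i
        by_cases hi : i = i0
        · subst hi
          filter_upwards [self_mem_nhdsWithin] with ε hε
          have := Le_M (v i) τ (d i) (D i) (hdM i) ε 1
          rw [mul_one] at this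
          rw [this]
          exact mul_pos hε (h1 i)
        · apply Le_pos
          exact add_pos (hMj i0 i (Ne.symm hi)).1 (hMj i0 i (Ne.symm hi)).2
    · refine ⟨(X - C w) ^ 2 * (X - C w') ^ 2, ?_, by simp, by simp, ?_, ?_⟩
      · refine natDegree_mul_le.trans ?_
        have := sqf_natDegree w
        have := sqf_natDegree w'
        omega
      · intro u _ hu1 hu2
        simp only [eval_mul, eval_pow, eval_sub, eval_X, eval_C]
        have := sub_ne_zero.2 hu1
        have := sub_ne_zero.2 hu2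
        positivity
      · rw [eventually_all]
        intro i
        apply Le_pos
        simp only [eval_mul, eval_pow, eval_sub, eval_X, eval_C]
        by_cases ha : v i - τ = w ∨ v i - τ = w'
        · have hb : v i + τ ≠ w ∧ v i + τ ≠ w' := by
            constructor
            · rintro h
              rcases ha with ha | ha
              · linarith
              · exact hcase ⟨i, Or.inr ⟨h.symm, ha.symm⟩⟩
            · rintro h
              rcases ha with ha | ha
              · exact hcase ⟨i, Or.inl ⟨ha.symm, h.symm⟩⟩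
              · linarith
          have hb1 := sub_ne_zero.2 hb.1
          have hb2 := sub_ne_zero.2 hb.2
          have : 0 < (v i + τ - w) ^ 2 * (v i + τ - w') ^ 2 := by positivity
          have : 0 ≤ (v i - τ - w) ^ 2 * (v i - τ - w') ^ 2 := by positivity
          linarith
        · push Not at ha
          have hb1 := sub_ne_zero.2 ha.1
          have hb2 := sub_ne_zero.2 ha.2
          have : 0 < (v i - τ - w) ^ 2 * (v i - τ - w') ^ 2 := by positivity
          have : 0 ≤ (v i + τ - w) ^ 2 * (v i + τ - w') ^ 2 := by positivity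
          linarith
  -- functionals negative at P_i
  have e3a : ∀ i, ∀ w ∈ T, w ≠ v i - τ → w ≠ v i + τ → ∃ g : ℝ[X],
      (Mq (v i) τ * g).natDegree ≤ 6 ∧ (Mq (v i) τ * g).eval w = 0 ∧
      (∀ u ∈ T, 0 ≤ (Mq (v i) τ * g).eval u) ∧ D i g < 0 ∧
      ∀ j, j ≠ i → 0 < (Mq (v i) τ * g).eval (v j - τ) + (Mq (v i) τ * g).eval (v j + τ) := by
    intro i w hw hw1 hw2
    obtain ⟨s, hs, hDs⟩ := h2 i w hw hw1 hw2
    refine ⟨(X - C w) ^ 2 * (X - C s) ^ 2, ?_, by simp, ?_, hDs, ?_⟩
    · refine natDegree_mul_le.trans ?_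
      have h5 : ((X - C w : ℝ[X]) ^ 2 * (X - C s) ^ 2).natDegree ≤ 4 := by
        refine natDegree_mul_le.trans ?_
        have := sqf_natDegree w
        have := sqf_natDegree s
        omega
      have := Mq_natDegree (v i) τ
      omega
    · intro u hu
      have := hMT i u hu
      rw [eval_mul]
      simp only [eval_mul, eval_pow, eval_sub, eval_X, eval_C]
      positivity
    · intro j hj
      obtain ⟨m1, m2⟩ := hMj i j (Ne.symm hj)
      rw [eval_mul, eval_mul]
      simp only [eval_mul, eval_pow, eval_sub, eval_X, eval_C]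
      have s1 : v j - τ - s ≠ 0 := by
        intro h; apply hs; rw [← sub_eq_zero.1 h]; exact hm j
      have s2 : v j + τ - s ≠ 0 := by
        intro h; apply hs; rw [← sub_eq_zero.1 h]; exact hp j
      by_cases hwj : v j - τ = w
      · have : v j + τ - w ≠ 0 := by intro h; linarith
        positivity
      · have := sub_ne_zero.2 hwj
        positivity
  have e3 : ∀ i, ∀ w ∈ T, ∃ g : ℝ[X],
      (Mq (v i) τ * g).natDegree ≤ 6 ∧ (Mq (v i) τ * g).eval w = 0 ∧
      (∀ u ∈ T, 0 ≤ (Mq (v i) τ * g).eval u) ∧ D i g < 0 ∧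
      ∀ j, j ≠ i → 0 < (Mq (v i) τ * g).eval (v j - τ) + (Mq (v i) τ * g).eval (v j + τ) := by
    intro i w hw
    by_cases hwi : w ≠ v i - τ ∧ w ≠ v i + τ
    · exact e3a i w hw hwi.1 hwi.2
    · have hcard : ({v i - τ, v i + τ} : Finset ℝ).card < T.card :=
        lt_of_le_of_lt Finset.card_le_two (by omega)
      obtain ⟨w', hw', hn⟩ := Finset.exists_mem_notMem_of_card_lt_card hcard
      simp only [Finset.mem_insert, Finset.mem_singleton, not_or] at hn
      obtain ⟨g, hg1, _, hg3, hg4, hg5⟩ := e3a i w' hw' hn.1 hn.2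
      refine ⟨g, hg1, ?_, hg3, hg4, hg5⟩
      rw [eval_mul, Mq_eval]
      have : w = v i - τ ∨ w = v i + τ := by
        by_contra h; push Not at h; exact hwi h
      rcases this with h | h <;> subst h <;> ring
  choose g3 g3deg g3w g3nn g3D g3j using e3
  have e3ev : ∀ᶠ ε in 𝓝[>] (0 : ℝ), ∀ i, ∀ w, ∀ hw : w ∈ T, ∀ j, j ≠ i →
      0 < Le (v j) τ (d j) ε (Mq (v i) τ * g3 i w hw) := by
    rw [eventually_all]
    intro i
    have : ∀ᶠ ε in 𝓝[>] (0 : ℝ), ∀ w : T, ∀ j, j ≠ i →
        0 < Le (v j) τ (d j) ε (Mq (v i) τ * g3 i w.1 w.2) := by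
      rw [eventually_all]
      intro w
      rw [eventually_all]
      intro j
      by_cases hj : j = i
      · exact Eventually.of_forall fun _ h => absurd hj h
      · filter_upwards [Le_pos (v j) τ (d j) _ (g3j i w.1 w.2 j hj)] with ε hε _ using hε
    filter_upwards [this] with ε hε w hw j hj using hε ⟨w, hw⟩ j hj
  -- edges P_i P_j
  choose q3 q3deg q3pos q3i q3j using h3
  have q3T : ∀ i j (h : G.Adj i j), ∀ u ∈ T,
      0 ≤ (Mq (v i) τ * (Mq (v j) τ * q3 i j h)).eval u := by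
    intro i j h u hu
    rw [eval_mul, eval_mul]
    have := hMT i u hu
    have := hMT j u hu
    have := q3pos i j h u hu
    positivity
  have e4 : ∀ᶠ ε in 𝓝[>] (0 : ℝ), ∀ i j, ∀ h : G.Adj i j, ∀ k, k ≠ i → k ≠ j →
      0 < Le (v k) τ (d k) ε (Mq (v i) τ * (Mq (v j) τ * q3 i j h)) := by
    rw [eventually_all]
    intro i
    rw [eventually_all]
    intro j
    by_cases h : G.Adj i j
    · have : ∀ᶠ ε in 𝓝[>] (0 : ℝ), ∀ k, k ≠ i → k ≠ j →
          0 < Le (v k) τ (d k) ε (Mq (v i) τ * (Mq (v j) τ * q3 i j h)) := by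
        rw [eventually_all]
        intro k
        by_cases hk : k ≠ i ∧ k ≠ j
        · have hpos := Le_pos (v k) τ (d k) (Mq (v i) τ * (Mq (v j) τ * q3 i j h)) (by
            rw [eval_mul, eval_mul, eval_mul, eval_mul]
            have := hMj i k (Ne.symm hk.1)
            have := hMj j k (Ne.symm hk.2)
            have := q3pos i j h _ (hm k)
            have := q3pos i j h _ (hp k)
            obtain ⟨_, _⟩ := hMj i k (Ne.symm hk.1)
            obtain ⟨_, _⟩ := hMj j k (Ne.symm hk.2)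
            positivity)
          filter_upwards [hpos] with ε hε _ _ using hε
        · exact Eventually.of_forall fun _ a b => absurd ⟨a, b⟩ hk
      filter_upwards [this] with ε hε h' k hk1 hk2 using hε k hk1 hk2
    · exact Eventually.of_forall fun _ h' => absurd h' h
  -- non-edges
  choose a4 b4 ha4 hb4 N4 N4T N4card N4ne q4 using h4
  have e5 : ∀ᶠ ε in 𝓝[>] (0 : ℝ), ∀ i j, ∀ hij : i ≠ j, ∀ h : ¬ G.Adj i j,
      ∃ c : ℝ → ℝ, (∀ w ∈ T, 0 ≤ c w) ∧ (∃ w ∈ T, 0 < c w) ∧ ∀ f : ℝ[X], f.natDegree ≤ 6 →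
        a4 i j hij h * Le (v i) τ (d i) ε f + b4 i j hij h * Le (v j) τ (d j) ε f =
          ∑ w ∈ T, c w * f.eval w := by
    rw [eventually_all]
    intro i
    rw [eventually_all]
    intro j
    by_cases hij : i ≠ j
    swap
    · exact Eventually.of_forall fun _ h' => absurd h' hij
    by_cases h : G.Adj i j
    · exact Eventually.of_forall fun _ _ h' => absurd h h'
    set a := a4 i j hij h with ha
    set b := b4 i j hij h with hb
    have ha0 : 0 < a := ha4 i j hij h
    have hb0 : 0 < b := hb4 i j hij h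
    set N := N4 i j hij h with hN
    obtain ⟨x1, x2, x3, x4⟩ := hdd i j hij
    have xi : v i - τ ≠ v i + τ := by intro hh; linarith
    have xj : v j - τ ≠ v j + τ := by intro hh; linarith
    let s : Finset ℝ := insert (v i - τ) (insert (v i + τ) (insert (v j - τ)
      (insert (v j + τ) N)))
    have hNi : ∀ w ∈ N, (w ≠ v i - τ ∧ w ≠ v i + τ) ∧ (w ≠ v j - τ ∧ w ≠ v j + τ) :=
      N4ne i j hij h
    have hscard : s.card = 7 := by
      have hc := N4card i j hij h
      rw [← hN] at hc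
      simp only [s]
      rw [Finset.card_insert_of_notMem, Finset.card_insert_of_notMem,
        Finset.card_insert_of_notMem, Finset.card_insert_of_notMem, hc]
      · intro hh; exact (hNi _ hh).2.2 rfl
      · simp only [Finset.mem_insert, not_or]
        exact ⟨xj, fun hh => (hNi _ hh).2.1 rfl⟩
      · simp only [Finset.mem_insert, not_or]
        exact ⟨x2.symm, x4.symm, fun hh => (hNi _ hh).1.2 rfl⟩
      · simp only [Finset.mem_insert, not_or]
        exact ⟨xi, x1.symm, x3.symm, fun hh => (hNi _ hh).1.1 rfl⟩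
    have hsT : s ⊆ T := by
      intro w hw
      simp only [s, Finset.mem_insert] at hw
      rcases hw with rfl | rfl | rfl | rfl | hw
      · exact hm i
      · exact hp i
      · exact hm j
      · exact hp j
      · exact N4T i j hij h hw
    let Λ : ℝ → (ℝ[X] →ₗ[ℝ] ℝ) := fun ε => a • Le (v i) τ (d i) ε + b • Le (v j) τ (d j) ε
    have hΛ : ∀ ε f, Λ ε f = a * Le (v i) τ (d i) ε f + b * Le (v j) τ (d j) ε f := by
      intro ε f; simp [Λ]
    -- product over N
    let PN : ℝ[X] := ∏ n ∈ N, (X - C n)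
    have hPNdeg : PN.natDegree = 3 := by
      simp only [PN]
      rw [natDegree_finsetProd_X_sub_C_eq_card, ← N4card i j hij h]
    have hPN0 : ∀ n ∈ N, PN.eval n = 0 := by
      intro n hn
      simp only [PN, eval_prod]
      exact Finset.prod_eq_zero hn (by simp)
    have hPNne : ∀ x, x ∉ N → PN.eval x ≠ 0 := by
      intro x hx
      simp only [PN, eval_prod]
      rw [Finset.prod_ne_zero_iff]
      intro n hn
      simp only [eval_sub, eval_X, eval_C]
      intro hh
      exact hx (by rw [sub_eq_zero.1 hh]; exact hn)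
    -- test polynomials for the four special nodes
    have test : ∀ (k l : V), k ≠ l → ∀ (z z' : ℝ), ((z = v k - τ ∧ z' = v k + τ) ∨
        (z = v k + τ ∧ z' = v k - τ)) → z ∉ N → ∃ B : ℝ[X], B.natDegree ≤ 6 ∧ 0 < B.eval z ∧
        B.eval z' = 0 ∧ B.eval (v l - τ) = 0 ∧ B.eval (v l + τ) = 0 ∧ ∀ n ∈ N, B.eval n = 0 := by
      intro k l hkl z z' hz hzN
      let B0 : ℝ[X] := (X - C z') * (Mq (v l) τ * PN)
      have hB0z : B0.eval z ≠ 0 := by
        simp only [B0, eval_mul]
        refine mul_ne_zero ?_ (mul_ne_zero ?_ (hPNne z hzN))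
        · simp only [eval_sub, eval_X, eval_C]
          rcases hz with ⟨h1, h2⟩ | ⟨h1, h2⟩ <;> rw [h1, h2] <;> intro hh <;> linarith
        · obtain ⟨m1, m2⟩ := hMj l k hkl.symm
          rcases hz with ⟨h1, _⟩ | ⟨h1, _⟩ <;> rw [h1]
          · exact m1.ne'
          · exact m2.ne'
      refine ⟨C (B0.eval z) * B0, ?_, ?_, ?_, ?_, ?_, ?_⟩
      · refine (natDegree_C_mul_le _ _).trans ?_
        refine natDegree_mul_le.trans ?_
        have h5 : (Mq (v l) τ * PN).natDegree ≤ 5 := by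
          refine natDegree_mul_le.trans ?_
          have := Mq_natDegree (v l) τ
          omega
        have h6 : (X - C z' : ℝ[X]).natDegree = 1 := natDegree_X_sub_C z'
        omega
      · rw [eval_mul, eval_C]
        exact mul_self_pos.2 hB0z
      · simp [B0]
      · simp [B0, Mq_eval]
      · simp [B0, Mq_eval]
      · intro n hn
        simp [B0, hPN0 n hn]
    obtain ⟨B1, hB1a, hB1b, hB1c, hB1d, hB1e, hB1f⟩ := test i j hij (v i - τ) (v i + τ)
      (Or.inl ⟨rfl, rfl⟩) (fun hh => (hNi _ hh).1.1 rfl)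
    obtain ⟨B2, hB2a, hB2b, hB2c, hB2d, hB2e, hB2f⟩ := test i j hij (v i + τ) (v i - τ)
      (Or.inr ⟨rfl, rfl⟩) (fun hh => (hNi _ hh).1.2 rfl)
    obtain ⟨B3, hB3a, hB3b, hB3c, hB3d, hB3e, hB3f⟩ := test j i hij.symm (v j - τ) (v j + τ)
      (Or.inl ⟨rfl, rfl⟩) (fun hh => (hNi _ hh).2.1 rfl)
    obtain ⟨B4, hB4a, hB4b, hB4c, hB4d, hB4e, hB4f⟩ := test j i hij.symm (v j + τ) (v j - τ)
      (Or.inr ⟨rfl, rfl⟩) (fun hh => (hNi _ hh).2.2 rfl)
    have hlim : ∀ B : ℝ[X], 0 < a * ((B.eval (v i - τ) + B.eval (v i + τ)) / 2) +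
        b * ((B.eval (v j - τ) + B.eval (v j + τ)) / 2) →
        ∀ᶠ ε in 𝓝[>] (0 : ℝ), 0 < Λ ε B := by
      intro B hB
      have hc : Tendsto (fun ε : ℝ => a * ((B.eval (v i - τ) + B.eval (v i + τ)) / 2 + ε * d i B) +
          b * ((B.eval (v j - τ) + B.eval (v j + τ)) / 2 + ε * d j B)) (𝓝[>] 0)
          (𝓝 (a * ((B.eval (v i - τ) + B.eval (v i + τ)) / 2 + 0 * d i B) +
          b * ((B.eval (v j - τ) + B.eval (v j + τ)) / 2 + 0 * d j B))) := by
        apply Tendsto.mono_left _ nhdsWithin_le_nhds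
        apply Continuous.tendsto
        fun_prop
      rw [zero_mul, zero_mul, add_zero, add_zero] at hc
      filter_upwards [hc.eventually (lt_mem_nhds hB)] with ε hε
      rw [hΛ, Le_apply, Le_apply]; exact hε
    have ev1 := hlim B1 (by rw [hB1c, hB1d, hB1e]; simp; positivity)
    have ev2 := hlim B2 (by rw [hB2c, hB2d, hB2e]; simp; positivity)
    have ev3 := hlim B3 (by rw [hB3c, hB3d, hB3e]; simp; positivity)
    have ev4 := hlim B4 (by rw [hB4c, hB4d, hB4e]; simp; positivity)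
    filter_upwards [ev1, ev2, ev3, ev4, self_mem_nhdsWithin] with ε k1 k2 k3 k4 hε hij' h'
    obtain ⟨c, hc, hcf⟩ := quadrature s hscard (Λ ε) (by
      intro w hw
      simp only [s, Finset.mem_insert] at hw
      rcases hw with rfl | rfl | rfl | rfl | hw
      · refine ⟨B1, hB1a, hB1b, ?_, k1⟩
        intro w' hw' hne
        simp only [s, Finset.mem_insert] at hw'
        rcases hw' with rfl | rfl | rfl | rfl | hw'
        · exact absurd rfl hne
        · exact hB1c
        · exact hB1d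
        · exact hB1e
        · exact hB1f _ hw'
      · refine ⟨B2, hB2a, hB2b, ?_, k2⟩
        intro w' hw' hne
        simp only [s, Finset.mem_insert] at hw'
        rcases hw' with rfl | rfl | rfl | rfl | hw'
        · exact hB2c
        · exact absurd rfl hne
        · exact hB2d
        · exact hB2e
        · exact hB2f _ hw'
      · refine ⟨B3, hB3a, hB3b, ?_, k3⟩
        intro w' hw' hne
        simp only [s, Finset.mem_insert] at hw'
        rcases hw' with rfl | rfl | rfl | rfl | hw'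
        · exact hB3d
        · exact hB3e
        · exact absurd rfl hne
        · exact hB3c
        · exact hB3f _ hw'
      · refine ⟨B4, hB4a, hB4b, ?_, k4⟩
        intro w' hw' hne
        simp only [s, Finset.mem_insert] at hw'
        rcases hw' with rfl | rfl | rfl | rfl | hw'
        · exact hB4d
        · exact hB4e
        · exact hB4c
        · exact absurd rfl hne
        · exact hB4f _ hw'
      · obtain ⟨q, hq1, hq2, hq3, hq4⟩ := q4 i j hij h w hw
        refine ⟨Mq (v i) τ * (Mq (v j) τ * q), ?_, ?_, ?_, ?_⟩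
        · refine natDegree_mul_le.trans ?_
          have h5 : (Mq (v j) τ * q).natDegree ≤ 4 := by
            refine natDegree_mul_le.trans ?_
            have := Mq_natDegree (v j) τ
            omega
          have := Mq_natDegree (v i) τ
          omega
        · rw [eval_mul, eval_mul, Mq_eval, Mq_eval]
          have m1 := hM i w (N4T i j hij h hw) (hNi w hw).1.1 (hNi w hw).1.2
          have m2 := hM j w (N4T i j hij h hw) (hNi w hw).2.1 (hNi w hw).2.2
          positivity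
        · intro w' hw' hne
          simp only [s, Finset.mem_insert] at hw'
          rcases hw' with rfl | rfl | rfl | rfl | hw'
          · simp [Mq_eval]
          · simp [Mq_eval]
          · simp [Mq_eval]
          · simp [Mq_eval]
          · simp [hq3 w' hw' hne]
        · rw [hΛ, Le_M (v i) τ (d i) (D i) (hdM i)]
          have hsw : Mq (v i) τ * (Mq (v j) τ * q) = Mq (v j) τ * (Mq (v i) τ * q) := by ring
          rw [hsw, Le_M (v j) τ (d j) (D j) (hdM j)]
          have hpos : 0 < ε * (a * D i (Mq (v j) τ * q) + b * D j (Mq (v i) τ * q)) :=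
            mul_pos hε hq4
          linarith)
    refine ⟨fun w => if w ∈ s then c w else 0, ?_, ?_, ?_⟩
    · intro w _
      by_cases hws : w ∈ s
      · simp only [hws, if_true]; exact (hc w hws).le
      · simp [hws]
    · refine ⟨v i - τ, hm i, ?_⟩
      have : v i - τ ∈ s := by simp [s]
      simp only [this, if_true]
      exact hc _ this
    · intro f hf
      rw [← hΛ, hcf f hf]
      have hfil : T.filter (fun w => w ∈ s) = s := by
        ext w
        simp only [Finset.mem_filter]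
        exact ⟨fun hh => hh.2, fun hh => ⟨hsT hh, hh⟩⟩
      conv_lhs => rw [← hfil]
      rw [Finset.sum_filter]
      refine Finset.sum_congr rfl fun w _ => ?_
      by_cases hws : w ∈ s <;> simp [hws]
  -- edges within W, uniformly
  choose f2 f2deg f2w f2w' f2pos f2ev using e2
  have e2ev : ∀ᶠ ε in 𝓝[>] (0 : ℝ), ∀ w, ∀ hw : w ∈ T, ∀ w', ∀ hw' : w' ∈ T, ∀ hne : w ≠ w',
      ∀ i, 0 < Le (v i) τ (d i) ε (f2 w hw w' hw' hne) := by
    have : ∀ᶠ ε in 𝓝[>] (0 : ℝ), ∀ w : T, ∀ w' : T, ∀ hne : w.1 ≠ w'.1,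
        ∀ i, 0 < Le (v i) τ (d i) ε (f2 w.1 w.2 w'.1 w'.2 hne) := by
      rw [eventually_all]
      intro w
      rw [eventually_all]
      intro w'
      by_cases hne : w.1 = w'.1
      · exact Eventually.of_forall fun _ h => absurd hne h
      · filter_upwards [f2ev w.1 w.2 w'.1 w'.2 hne] with ε hε _ using hε
    filter_upwards [this] with ε hε w hw w' hw' hne i using hε ⟨w, hw⟩ ⟨w', hw'⟩ hne i
  obtain ⟨ε, c1, c2, c3, c4, c5, hε0⟩ :=
    (e1.and (e2ev.and (e3ev.and (e4.and (e5.and self_mem_nhdsWithin))))).exists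
  have hε : 0 < ε := hε0
  set n := T.card with hn
  let t : Fin n → ℝ := fun k => ((T.equivFin.symm k : T) : ℝ)
  have htT : ∀ k, t k ∈ T := fun k => (T.equivFin.symm k).2
  have htinj : Function.Injective t := fun k l h =>
    T.equivFin.symm.injective (Subtype.ext h)
  have htsurj : ∀ w ∈ T, ∃ k, t k = w := fun w hw => ⟨T.equivFin ⟨w, hw⟩, by simp [t]⟩
  let L : V ⊕ Fin n → ℝ[X] →ₗ[ℝ] ℝ := fun x => Sum.elim (fun i => Le (v i) τ (d i) ε)
    (fun k => leval (t k)) x
  have hLl : ∀ i, L (Sum.inl i) = Le (v i) τ (d i) ε := fun i => rfl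
  have hLr : ∀ k f, L (Sum.inr k) f = f.eval (t k) := fun k f => rfl
  obtain ⟨w0, hw0⟩ : T.Nonempty := Finset.card_pos.1 (by omega)
  refine ⟨n, by omega, polytopal_of_functionals (joinComplete G n) L ?_ ⟨Sum.inr ⟨0, by omega⟩⟩
    ?_ ?_ ?_ ?_⟩
  · rintro (i | k)
    · rw [hLl, Le_apply, hd1]; simp
    · rw [hLr]; simp
  · intro f hf h
    apply eq_zero_of_natDegree_lt_card_of_eval_eq_zero' f T
    · intro w hw
      obtain ⟨k, rfl⟩ := htsurj w hw
      exact h (Sum.inr k)
    · omega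
  · rintro (i | k)
    · -- P_i is a vertex
      have hLf : Le (v i) τ (d i) ε (Mq (v i) τ * g3 i w0 hw0) < 0 := by
        rw [Le_M (v i) τ (d i) (D i) (hdM i)]
        exact mul_neg_of_pos_of_neg hε (g3D i w0 hw0)
      have hone : ∀ j (κ : ℝ), Le (v j) τ (d j) ε (C κ) = κ := by
        intro j κ
        rw [← mul_one (C κ), ← smul_eq_C_mul, map_smul, Le_apply, hd1]
        simp
      refine ⟨Mq (v i) τ * g3 i w0 hw0 + C (-(Le (v i) τ (d i) ε (Mq (v i) τ * g3 i w0 hw0))),
        ?_, ?_, ?_⟩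
      · exact (natDegree_add_le _ _).trans (max_le (g3deg i w0 hw0) (by simp))
      · rw [hLl, map_add, hone]; ring
      · rintro (j | k) hne
        · have hji : j ≠ i := fun h => hne (by rw [h])
          rw [hLl, map_add, hone]
          have := c3 i w0 hw0 j hji
          linarith
        · rw [hLr, eval_add, eval_C]
          have := g3nn i w0 hw0 (t k) (htT k)
          linarith
    · refine ⟨(X - C (t k)) ^ 2, (sqf_natDegree _).trans (by norm_num), by rw [hLr]; simp, ?_⟩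
      rintro (j | l) hne
      · exact c1 j (t k) (htT k)
      · rw [hLr]
        simp only [eval_pow, eval_sub, eval_X, eval_C]
        have : t l - t k ≠ 0 := by
          intro h
          exact hne (by rw [htinj (sub_eq_zero.1 h)])
        positivity
  · have hPW : ∀ (i : V) (k : Fin n), ∃ f : ℝ[X], f.natDegree ≤ 6 ∧ L (Sum.inl i) f ≤ 0 ∧
        L (Sum.inr k) f ≤ 0 ∧ ∀ w, w ≠ Sum.inl i → w ≠ Sum.inr k → 0 < L w f := by
      intro i k
      set F := Mq (v i) τ * g3 i (t k) (htT k) with hF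
      have hLf : Le (v i) τ (d i) ε F < 0 := by
        rw [hF, Le_M (v i) τ (d i) (D i) (hdM i)]
        exact mul_neg_of_pos_of_neg hε (g3D i _ _)
      have hsq := c1 i (t k) (htT k)
      set κ : ℝ := -(Le (v i) τ (d i) ε F) / Le (v i) τ (d i) ε ((X - C (t k)) ^ 2) with hκ
      have hκ0 : 0 < κ := div_pos (by linarith) hsq
      refine ⟨F + κ • (X - C (t k)) ^ 2, ?_, ?_, ?_, ?_⟩
      · refine (natDegree_add_le _ _).trans (max_le (g3deg i _ _) ?_)
        exact (natDegree_smul_le _ _).trans ((sqf_natDegree _).trans (by norm_num))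
      · rw [hLl, map_add, map_smul, smul_eq_mul, hκ, div_mul_cancel₀ _ hsq.ne']
        linarith
      · rw [hLr, eval_add, g3w]
        simp
      · rintro (j | l) hne1 hne2
        · have hji : j ≠ i := fun h => hne1 (by rw [h])
          rw [hLl, map_add, map_smul, smul_eq_mul]
          have := c3 i (t k) (htT k) j hji
          have := c1 j (t k) (htT k)
          positivity
        · rw [hLr, eval_add, eval_smul, smul_eq_mul]
          have := g3nn i (t k) (htT k) (t l) (htT l)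
          simp only [eval_pow, eval_sub, eval_X, eval_C]
          have : t l - t k ≠ 0 := by
            intro h
            exact hne2 (by rw [htinj (sub_eq_zero.1 h)])
          positivity
    rintro (i | k) (j | l) hadj
    · have hG : G.Adj i j := hadj.2 i j rfl rfl
      set F := Mq (v i) τ * (Mq (v j) τ * q3 i j hG) with hF
      have hFi : Le (v i) τ (d i) ε F < 0 := by
        rw [hF, Le_M (v i) τ (d i) (D i) (hdM i)]
        exact mul_neg_of_pos_of_neg hε (q3i i j hG)
      have hFj : Le (v j) τ (d j) ε F < 0 := by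
        have hsw : F = Mq (v j) τ * (Mq (v i) τ * q3 i j hG) := by rw [hF]; ring
        rw [hsw, Le_M (v j) τ (d j) (D j) (hdM j)]
        exact mul_neg_of_pos_of_neg hε (q3j i j hG)
      have hone : ∀ j (κ : ℝ), Le (v j) τ (d j) ε (C κ) = κ := by
        intro j κ
        rw [← mul_one (C κ), ← smul_eq_C_mul, map_smul, Le_apply, hd1]
        simp
      set κ : ℝ := min (-(Le (v i) τ (d i) ε F)) (-(Le (v j) τ (d j) ε F)) with hκ
      have hκ0 : 0 < κ := lt_min (by linarith) (by linarith)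
      refine ⟨F + C κ, ?_, ?_, ?_, ?_⟩
      · refine (natDegree_add_le _ _).trans (max_le ?_ (by simp))
        refine natDegree_mul_le.trans ?_
        have h5 : (Mq (v j) τ * q3 i j hG).natDegree ≤ 4 := by
          refine natDegree_mul_le.trans ?_
          have := Mq_natDegree (v j) τ
          have := q3deg i j hG
          omega
        have := Mq_natDegree (v i) τ
        omega
      · rw [hLl, map_add, hone]
        have := min_le_left (-(Le (v i) τ (d i) ε F)) (-(Le (v j) τ (d j) ε F))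
        linarith
      · rw [hLl, map_add, hone]
        have := min_le_right (-(Le (v i) τ (d i) ε F)) (-(Le (v j) τ (d j) ε F))
        linarith
      · rintro (k | l) hne1 hne2
        · have hki : k ≠ i := fun h => hne1 (by rw [h])
          have hkj : k ≠ j := fun h => hne2 (by rw [h])
          rw [hLl, map_add, hone]
          have := c4 i j hG k hki hkj
          linarith
        · rw [hLr, eval_add, eval_C]
          have := q3T i j hG (t l) (htT l)
          linarith
    · exact hPW i l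
    · obtain ⟨f, hf1, hf2, hf3, hf4⟩ := hPW j k
      exact ⟨f, hf1, hf3, hf2, fun w hw1 hw2 => hf4 w hw2 hw1⟩
    · have hkl : t k ≠ t l := fun h => hadj.1 (by rw [htinj h])
      refine ⟨f2 (t k) (htT k) (t l) (htT l) hkl, f2deg _ _ _ _ _, ?_, ?_, ?_⟩
      · rw [hLr, f2w]
      · rw [hLr, f2w']
      · rintro (j | m) hne1 hne2
        · exact c2 (t k) (htT k) (t l) (htT l) hkl j
        · rw [hLr]
          refine f2pos _ _ _ _ _ _ (htT m) ?_ ?_
          · intro h; exact hne1 (by rw [htinj h])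
          · intro h; exact hne2 (by rw [htinj h])
  · rintro (i | k) (j | l) hne hadj
    · have hij : i ≠ j := fun h => hne (by rw [h])
      have hG : ¬ G.Adj i j := by
        intro h
        apply hadj
        refine ⟨hne, ?_⟩
        intro u w hu hw
        rw [← Sum.inl.inj hu, ← Sum.inl.inj hw]
        exact h
      obtain ⟨c, hc0, ⟨w1, hw1, hcw1⟩, hcf⟩ := c5 i j hij hG
      obtain ⟨k1, hk1⟩ := htsurj w1 hw1
      refine ⟨a4 i j hij hG, b4 i j hij hG, Sum.elim (fun _ => 0) (fun k => c (t k)),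
        Sum.inr k1, by simp, by simp, ?_, ?_, ?_⟩
      · rintro (x | k)
        · simp
        · exact hc0 _ (htT k)
      · simp only [Sum.elim_inr]
        rw [hk1]; exact hcw1
      · intro f hf
        rw [hLl, hLl, hcf f hf, Fintype.sum_sum_type]
        simp only [Sum.elim_inl, zero_mul, Finset.sum_const_zero, zero_add, Sum.elim_inr]
        rw [← Finset.sum_coe_sort T (fun w => c w * f.eval w)]
        rw [← Equiv.sum_comp T.equivFin.symm (fun w : T => c w.1 * f.eval w.1)]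
        rfl
    · exact absurd ⟨hne, fun u w _ hw => by cases hw⟩ hadj
    · exact absurd ⟨hne, fun u w hu _ => by cases hu⟩ hadj
    · exact absurd ⟨hne, fun u w hu _ => by cases hu⟩ hadj

/-- The functional with moments `1, 1/(2v^2), 0, -1/(2v^3), -1/v^2`. -/
noncomputable def Dfun (v : ℝ) : ℝ[X] →ₗ[ℝ] ℝ :=
  lcoeff ℝ 0 + (1 / (2 * v ^ 2)) • lcoeff ℝ 1 - (1 / (2 * v ^ 3)) • lcoeff ℝ 3
    - (1 / v ^ 2) • lcoeff ℝ 4

theorem Dfun_quartic (v b4 b3 b2 b1 b0 : ℝ) :
    Dfun v (C b4 * X ^ 4 + C b3 * X ^ 3 + C b2 * X ^ 2 + C b1 * X + C b0) =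
      b0 + b1 / (2 * v ^ 2) - b3 / (2 * v ^ 3) - b4 / v ^ 2 := by
  simp [Dfun, coeff_X, coeff_C]
  ring

theorem Dfun_mul (v β γ a2 a1 a0 : ℝ) :
    Dfun v ((X ^ 2 + C β * X + C γ) * (C a2 * X ^ 2 + C a1 * X + C a0)) =
      γ * a0 + (β * a0 + γ * a1) / (2 * v ^ 2) - (a1 + β * a2) / (2 * v ^ 3) - a2 / v ^ 2 := by
  have h : ((X ^ 2 + C β * X + C γ) * (C a2 * X ^ 2 + C a1 * X + C a0) : ℝ[X]) =
      C a2 * X ^ 4 + C (a1 + β * a2) * X ^ 3 + C (a0 + β * a1 + γ * a2) * X ^ 2
        + C (β * a0 + γ * a1) * X + C (γ * a0) := by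
    simp only [C_add, C_mul]
    ring
  rw [h, Dfun_quartic]

theorem Dfun_quad (v a2 a1 a0 : ℝ) :
    Dfun v (C a2 * X ^ 2 + C a1 * X + C a0) = a0 + a1 / (2 * v ^ 2) := by
  simp [Dfun, coeff_X, coeff_C]
  ring

noncomputable def Dp (v τ : ℝ) : ℝ[X] →ₗ[ℝ] ℝ := Dfun v + τ • (leval (-1) + leval (-2))

theorem Dp_apply (v τ : ℝ) (f : ℝ[X]) :
    Dp v τ f = Dfun v f + τ * (f.eval (-1) + f.eval (-2)) := by
  simp [Dp, mul_add]

theorem sq_form (w : ℝ) : ((X - C w) ^ 2 : ℝ[X]) = X ^ 2 + C (-2 * w) * X + C (w ^ 2) := by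
  simp only [C_mul, C_neg, C_pow]
  have : (C (2 : ℝ) : ℝ[X]) = 2 := map_ofNat C 2
  rw [this]; ring

theorem Mq_form (w τ : ℝ) : Mq w τ = X ^ 2 + C (-2 * w) * X + C (w ^ 2 - τ ^ 2) := by
  rw [Mq, sq_form, C_sub]; ring

noncomputable def Dval (v y s : ℝ) : ℝ := (y * s - 1 / v) * (v ^ 2 * y * s - y - s + v) / v ^ 2

theorem Dfun_sq_sq (v y s : ℝ) (hv : v ≠ 0) :
    Dfun v ((X - C y) ^ 2 * (X - C s) ^ 2) = Dval v y s := by
  have h : ((X - C y) ^ 2 * (X - C s) ^ 2 : ℝ[X]) =
      (X ^ 2 + C (-2 * y) * X + C (y ^ 2)) * (C 1 * X ^ 2 + C (-2 * s) * X + C (s ^ 2)) := by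
    rw [sq_form, sq_form]; simp
  rw [h, Dfun_mul, Dval]
  field_simp
  ring

theorem exists_neg (v y : ℝ) (hv : 0 < v) (h : v * y ^ 2 - 2 * v ^ 2 * y + 1 ≠ 0) (S : Finset ℝ) :
    ∃ s, s ∉ S ∧ Dval v y s < 0 := by
  have hopen : IsOpen {s : ℝ | Dval v y s < 0} := by
    apply isOpen_lt _ continuous_const
    unfold Dval
    fun_prop
  have hne : {s : ℝ | Dval v y s < 0}.Nonempty := by
    by_contra hcon
    have hall : ∀ s : ℝ, 0 ≤ (y * (v ^ 2 * y - 1)) * (s * s) +
        (y * (v - y) - (v ^ 2 * y - 1) / v) * s + (-(v - y) / v) := by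
      intro s
      have hs : ¬ Dval v y s < 0 := fun hs => hcon ⟨s, hs⟩
      push Not at hs
      have : Dval v y s * v ^ 2 = (y * (v ^ 2 * y - 1)) * (s * s) +
          (y * (v - y) - (v ^ 2 * y - 1) / v) * s + (-(v - y) / v) := by
        unfold Dval
        field_simp
        ring
      rw [← this]
      positivity
    have hd := discrim_le_zero hall
    have hsq : discrim (y * (v ^ 2 * y - 1)) (y * (v - y) - (v ^ 2 * y - 1) / v) (-(v - y) / v) =
        ((v * y ^ 2 - 2 * v ^ 2 * y + 1) / v) ^ 2 := by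
      unfold discrim
      field_simp
      ring
    rw [hsq] at hd
    have : 0 < ((v * y ^ 2 - 2 * v ^ 2 * y + 1) / v) ^ 2 := by positivity
    linarith
  have hdense : Dense ((S : Set ℝ)ᶜ) := (S.countable_toSet).dense_compl ℝ
  obtain ⟨s, hs1, hs2⟩ := hdense.inter_open_nonempty _ hopen hne
  exact ⟨s, by simpa using hs2, hs1⟩

theorem evpos (F : ℝ → ℝ) (hF : Continuous F) (h : 0 < F 0) : ∀ᶠ τ in 𝓝[>] (0 : ℝ), 0 < F τ := by
  have hc : Tendsto F (𝓝[>] 0) (𝓝 (F 0)) :=
    (hF.tendsto 0).mono_left nhdsWithin_le_nhds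
  exact hc.eventually (lt_mem_nhds h)

theorem evne (F : ℝ → ℝ) (hF : Continuous F) (h : F 0 ≠ 0) : ∀ᶠ τ in 𝓝[>] (0 : ℝ), F τ ≠ 0 := by
  have hc : Tendsto F (𝓝[>] 0) (𝓝 (F 0)) :=
    (hF.tendsto 0).mono_left nhdsWithin_le_nhds
  exact hc.eventually (isOpen_ne.mem_nhds h)

/-- the value of `Dfun v` on a product of two quadratics -/
noncomputable def Dexp (v β γ a2 a1 a0 : ℝ) : ℝ :=
  γ * a0 + (β * a0 + γ * a1) / (2 * v ^ 2) - (a1 + β * a2) / (2 * v ^ 3) - a2 / v ^ 2

theorem key_identity (x y a2 a1 a0 : ℝ) (hx : x ≠ 0) (hy : y ≠ 0) :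
    ((2 * y ^ 2 * x - y * x ^ 2 - 1) * x ^ 3) * Dexp x (-2 * y) (y ^ 2) a2 a1 a0 +
    ((x * y ^ 2 - 2 * x ^ 2 * y + 1) * y ^ 3) * Dexp y (-2 * x) (x ^ 2) a2 a1 a0 =
    (((2 * y ^ 2 * x - y * x ^ 2 - 1) * x ^ 3) * (y ^ 2 - y / x ^ 2) +
      ((x * y ^ 2 - 2 * x ^ 2 * y + 1) * y ^ 3) * (x ^ 2 - x / y ^ 2)) *
      (a2 * (1 / (x * y)) ^ 2 + a1 * (1 / (x * y)) + a0) := by
  unfold Dexp
  field_simp
  ring

theorem Dp_Mq_mul (v w τ a2 a1 a0 : ℝ) :
    Dp v τ (Mq w τ * (C a2 * X ^ 2 + C a1 * X + C a0)) =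
      Dexp v (-2 * w) (w ^ 2) a2 a1 a0 - τ ^ 2 * (a0 + a1 / (2 * v ^ 2)) +
      τ * (((1 + w) ^ 2 - τ ^ 2) * (a2 - a1 + a0) + ((2 + w) ^ 2 - τ ^ 2) *
        (4 * a2 - 2 * a1 + a0)) := by
  rw [Dp_apply, Mq_form, Dfun_mul]
  simp only [eval_mul, eval_add, eval_pow, eval_X, eval_C, Dexp]
  ring

theorem nonedge_ineq (x y : ℝ) (hx : 3 ≤ x) (hy : 2 * x < y) :
    ∃ a b : ℝ, 0 < a ∧ 0 < b ∧ ∀ᶠ τ in 𝓝[>] (0 : ℝ),
      (0 < a * Dp x τ (Mq y τ * (C 1 * X ^ 2 + C 3 * X + C 2)) +
        b * Dp y τ (Mq x τ * (C 1 * X ^ 2 + C 3 * X + C 2))) ∧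
      (0 < a * Dp x τ (Mq y τ * (C (-1) * X ^ 2 + C (1 / (x * y) - 2) * X + C (2 * (1 / (x * y))))) +
        b * Dp y τ (Mq x τ * (C (-1) * X ^ 2 + C (1 / (x * y) - 2) * X
          + C (2 * (1 / (x * y)))))) ∧
      (0 < a * Dp x τ (Mq y τ * (C 1 * X ^ 2 + C (1 - 1 / (x * y)) * X + C (-(1 / (x * y))))) +
        b * Dp y τ (Mq x τ * (C 1 * X ^ 2 + C (1 - 1 / (x * y)) * X + C (-(1 / (x * y)))))) := by
  have hx0 : 0 < x := by linarith
  have hy0 : 0 < y := by linarith
  have hxy : 9 ≤ x * y := by nlinarith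
  have ha' : 0 < 2 * y ^ 2 * x - y * x ^ 2 - 1 := by
    have : 2 * y ^ 2 * x - y * x ^ 2 = x * y * (2 * y - x) := by ring
    rw [this]
    have : 1 ≤ 2 * y - x := by linarith
    nlinarith
  have hb' : 0 < x * y ^ 2 - 2 * x ^ 2 * y + 1 := by
    have : x * y ^ 2 - 2 * x ^ 2 * y = x * y * (y - 2 * x) := by ring
    rw [this]
    have : 0 < x * y * (y - 2 * x) := by
      have : 0 < y - 2 * x := by linarith
      positivity
    linarith
  set a : ℝ := (2 * y ^ 2 * x - y * x ^ 2 - 1) * x ^ 3 with ha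
  set b : ℝ := (x * y ^ 2 - 2 * x ^ 2 * y + 1) * y ^ 3 with hb
  have ha0 : 0 < a := by positivity
  have hb0 : 0 < b := by positivity
  set g : ℝ := 1 / (x * y) with hg
  have hg0 : 0 < g := by positivity
  set c : ℝ := a * (y ^ 2 - y / x ^ 2) + b * (x ^ 2 - x / y ^ 2) with hc
  have hc0 : 0 < c := by
    have h1 : 0 < y ^ 2 - y / x ^ 2 := by
      have : y / x ^ 2 < y ^ 2 := by
        rw [div_lt_iff₀ (by positivity)]
        have : 1 < y * x ^ 2 := by nlinarith
        nlinarith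
      linarith
    have h2 : 0 < x ^ 2 - x / y ^ 2 := by
      have : x / y ^ 2 < x ^ 2 := by
        rw [div_lt_iff₀ (by positivity)]
        have : 1 < x * y ^ 2 := by nlinarith
        nlinarith
      linarith
    positivity
  have hF : ∀ τ a2 a1 a0 : ℝ, a * Dp x τ (Mq y τ * (C a2 * X ^ 2 + C a1 * X + C a0)) +
      b * Dp y τ (Mq x τ * (C a2 * X ^ 2 + C a1 * X + C a0)) =
      c * (a2 * g ^ 2 + a1 * g + a0) + τ * (-τ * (a * (a0 + a1 / (2 * x ^ 2)) +
        b * (a0 + a1 / (2 * y ^ 2))) +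
        ((a * ((1 + y) ^ 2 - τ ^ 2) + b * ((1 + x) ^ 2 - τ ^ 2)) * (a2 - a1 + a0) +
        (a * ((2 + y) ^ 2 - τ ^ 2) + b * ((2 + x) ^ 2 - τ ^ 2)) * (4 * a2 - 2 * a1 + a0))) := by
    intro τ a2 a1 a0
    have hk := key_identity x y a2 a1 a0 hx0.ne' hy0.ne'
    rw [← ha, ← hb, ← hg, ← hc] at hk
    rw [Dp_Mq_mul, Dp_Mq_mul, ← hk]
    ring
  refine ⟨a, b, ha0, hb0, ?_⟩
  have e0 := evpos (fun τ => c * (1 * g ^ 2 + 3 * g + 2) + τ * (-τ * (a * (2 + 3 / (2 * x ^ 2)) +
        b * (2 + 3 / (2 * y ^ 2))) +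
        ((a * ((1 + y) ^ 2 - τ ^ 2) + b * ((1 + x) ^ 2 - τ ^ 2)) * (1 - 3 + 2) +
        (a * ((2 + y) ^ 2 - τ ^ 2) + b * ((2 + x) ^ 2 - τ ^ 2)) * (4 * 1 - 2 * 3 + 2))))
    (by fun_prop) (by simp only [zero_mul, add_zero]; positivity)
  have e1 := evpos (fun τ => -τ * (a * (2 * g + (g - 2) / (2 * x ^ 2)) +
        b * (2 * g + (g - 2) / (2 * y ^ 2))) +
        (a * ((1 + y) ^ 2 - τ ^ 2) + b * ((1 + x) ^ 2 - τ ^ 2)) * (1 + g))
    (by fun_prop) (by norm_num; positivity)
  have e2 := evpos (fun τ => -τ * (a * (-g + (1 - g) / (2 * x ^ 2)) +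
        b * (-g + (1 - g) / (2 * y ^ 2))) +
        (a * ((2 + y) ^ 2 - τ ^ 2) + b * ((2 + x) ^ 2 - τ ^ 2)) * (2 + g))
    (by fun_prop) (by norm_num; positivity)
  filter_upwards [e0, e1, e2, self_mem_nhdsWithin] with τ k0 k1 k2 hτ
  have hτ0 : 0 < τ := hτ
  refine ⟨?_, ?_, ?_⟩
  · rw [hF]; exact k0
  · rw [hF]
    have := mul_pos hτ0 k1
    nlinarith [this]
  · rw [hF]
    have := mul_pos hτ0 k2
    nlinarith [this]

theorem level3 {V : Type} [Fintype V] [DecidableEq V] (G : SimpleGraph V) (v : V → ℝ)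
    (hv3 : ∀ i, 3 ≤ v i)
    (hratio : ∀ i j, i ≠ j → 2 * v i < v j ∨ 2 * v j < v i)
    (hprod : ∀ i j k l, i ≠ j → k ≠ l → v i * v j = v k * v l →
      (i = k ∧ j = l) ∨ (i = l ∧ j = k))
    (hgen : ∀ i k l, k ≠ l → v i * (1 / (v k * v l)) ^ 2 - 2 * v i ^ 2 * (1 / (v k * v l)) + 1 ≠ 0) :
    ∃ n ≥ 1, IsPolytopal 6 (joinComplete G n) := by
  classical
  have hv0 : ∀ i, 0 < v i := fun i => by linarith [hv3 i]
  have hvinj : ∀ i j, i ≠ j → v i ≠ v j := by
    intro i j hij h
    rcases hratio i j hij with h1 | h1 <;> linarith [hv0 i, hv0 j]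
  -- the fixed part of the point set
  let P0 : Finset (V × V) := Finset.univ.filter fun p => p.1 ≠ p.2 ∧ ¬ G.Adj p.1 p.2
  let Tg : Finset ℝ := P0.image fun p => 1 / (v p.1 * v p.2)
  let Tn : Finset ℝ := Finset.univ.image fun k : Fin 7 => -((k.val : ℝ) + 1)
  let T0 : Finset ℝ := Tg ∪ Tn
  let T : ℝ → Finset ℝ := fun τ => T0 ∪
    (Finset.univ.image (fun i => v i - τ) ∪ Finset.univ.image (fun i => v i + τ))
  have hTg : ∀ w, w ∈ Tg ↔ ∃ i j, i ≠ j ∧ ¬ G.Adj i j ∧ w = 1 / (v i * v j) := by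
    intro w
    simp only [Tg, P0, Finset.mem_image, Finset.mem_filter, Finset.mem_univ, true_and]
    constructor
    · rintro ⟨⟨i, j⟩, ⟨h1, h2⟩, rfl⟩
      exact ⟨i, j, h1, h2, rfl⟩
    · rintro ⟨i, j, h1, h2, rfl⟩
      exact ⟨⟨i, j⟩, ⟨h1, h2⟩, rfl⟩
  have hTn : ∀ w ∈ Tn, w ≤ -1 := by
    intro w hw
    simp only [Tn, Finset.mem_image, Finset.mem_univ, true_and] at hw
    obtain ⟨k, rfl⟩ := hw
    have : (0 : ℝ) ≤ k.val := Nat.cast_nonneg _
    linarith
  have hTn1 : (-1 : ℝ) ∈ Tn := by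
    simp only [Tn, Finset.mem_image, Finset.mem_univ, true_and]
    exact ⟨0, by norm_num⟩
  have hTn2 : (-2 : ℝ) ∈ Tn := by
    simp only [Tn, Finset.mem_image, Finset.mem_univ, true_and]
    exact ⟨1, by norm_num⟩
  have hTncard : Tn.card = 7 := by
    simp only [Tn]
    rw [Finset.card_image_of_injective]
    · simp
    · intro a b hab
      have : (a.val : ℝ) = b.val := by linarith [hab]
      exact Fin.ext (by exact_mod_cast this)
  have hg01 : ∀ i j, 0 < 1 / (v i * v j) ∧ 1 / (v i * v j) < 1 := by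
    intro i j
    have := hv3 i
    have := hv3 j
    have h9 : 9 ≤ v i * v j := by nlinarith
    constructor
    · positivity
    · rw [div_lt_one (by linarith)]; linarith
  have hT0lt : ∀ w ∈ T0, w < 1 := by
    intro w hw
    rcases Finset.mem_union.1 hw with hw | hw
    · obtain ⟨i, j, _, _, rfl⟩ := (hTg w).1 hw
      exact (hg01 i j).2
    · linarith [hTn w hw]
  have hmemT : ∀ τ w, w ∈ T τ ↔ w ∈ T0 ∨ (∃ i, w = v i - τ) ∨ ∃ i, w = v i + τ := by
    intro τ w
    simp only [T, Finset.mem_union, Finset.mem_image, Finset.mem_univ, true_and]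
    simp only [eq_comm]
  -- conditions
  have c1 : ∀ᶠ τ in 𝓝[>] (0 : ℝ), ∀ i, ∀ w ∈ T0, 0 < (w - v i) ^ 2 - τ ^ 2 := by
    rw [eventually_all]
    intro i
    rw [Filter.eventually_all_finset]
    intro w hw
    apply evpos (fun τ => (w - v i) ^ 2 - τ ^ 2) (by fun_prop)
    have : w - v i ≠ 0 := by
      have := hT0lt w hw
      have := hv3 i
      intro h; linarith
    have : 0 < (w - v i) ^ 2 := by positivity
    simpa using this
  have c2 : ∀ᶠ τ in 𝓝[>] (0 : ℝ), ∀ i j, i ≠ j → 0 < (v j - τ - v i) ^ 2 - τ ^ 2 ∧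
      0 < (v j + τ - v i) ^ 2 - τ ^ 2 ∧ v i - τ ≠ v j + τ := by
    rw [eventually_all]
    intro i
    rw [eventually_all]
    intro j
    by_cases hij : i = j
    · exact Eventually.of_forall fun _ h => absurd hij h
    · have hne : v j - v i ≠ 0 := sub_ne_zero.2 (hvinj j i (Ne.symm hij))
      have hpos : 0 < (v j - v i) ^ 2 := by positivity
      have h1 := evpos (fun τ => (v j - τ - v i) ^ 2 - τ ^ 2) (by fun_prop) (by simpa using hpos)
      have h2 := evpos (fun τ => (v j + τ - v i) ^ 2 - τ ^ 2) (by fun_prop) (by simpa using hpos)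
      have h3 := evne (fun τ => v i - τ - (v j + τ)) (by fun_prop) (by
        simp only [sub_zero, add_zero]
        exact sub_ne_zero.2 (hvinj i j hij))
      filter_upwards [h1, h2, h3] with τ k1 k2 k3 _
      exact ⟨k1, k2, fun h => k3 (sub_eq_zero.2 h)⟩
  -- (X-w)^2 (X-s)^2
  have hDpval : ∀ i τ w s, Dp (v i) τ ((X - C w) ^ 2 * (X - C s) ^ 2) = Dval (v i) w s +
      τ * ((-1 - w) ^ 2 * (-1 - s) ^ 2 + (-2 - w) ^ 2 * (-2 - s) ^ 2) := by
    intro i τ w s
    rw [Dp_apply, Dfun_sq_sq _ _ _ (hv0 i).ne']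
    simp
  let Tstar : Finset ℝ := T0 ∪ Finset.univ.image v
  have hsT : ∀ s, s ∉ Tstar → ∀ᶠ τ in 𝓝[>] (0 : ℝ), s ∉ T τ := by
    intro s hs
    simp only [Tstar, Finset.mem_union, Finset.mem_image, Finset.mem_univ, true_and, not_or,
      not_exists] at hs
    have h1 : ∀ᶠ τ in 𝓝[>] (0 : ℝ), ∀ i, s - (v i - τ) ≠ 0 := by
      rw [eventually_all]
      intro i
      apply evne (fun τ => s - (v i - τ)) (by fun_prop)
      simp only [sub_zero]
      exact sub_ne_zero.2 (Ne.symm (hs.2 i))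
    have h2 : ∀ᶠ τ in 𝓝[>] (0 : ℝ), ∀ i, s - (v i + τ) ≠ 0 := by
      rw [eventually_all]
      intro i
      apply evne (fun τ => s - (v i + τ)) (by fun_prop)
      simp only [add_zero]
      exact sub_ne_zero.2 (Ne.symm (hs.2 i))
    filter_upwards [h1, h2] with τ k1 k2
    rw [hmemT]
    rintro (h | ⟨i, h⟩ | ⟨i, h⟩)
    · exact hs.1 (by simpa [T0] using h)
    · exact k1 i (sub_eq_zero.2 h)
    · exact k2 i (sub_eq_zero.2 h)
  have hcont : ∀ (i : V) (s : ℝ) (u : ℝ → ℝ), Continuous u → Dval (v i) (u 0) s < 0 →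
      ∀ᶠ τ in 𝓝[>] (0 : ℝ), Dp (v i) τ ((X - C (u τ)) ^ 2 * (X - C s) ^ 2) < 0 := by
    intro i s u hu h0
    have h1 := evpos (fun τ => -(Dval (v i) (u τ) s +
      τ * ((-1 - u τ) ^ 2 * (-1 - s) ^ 2 + (-2 - u τ) ^ 2 * (-2 - s) ^ 2))) (by
        unfold Dval
        fun_prop) (by
        simp only [zero_mul, add_zero]
        linarith)
    filter_upwards [h1] with τ k
    rw [hDpval]
    linarith
  have hTij : ∀ i j, i ≠ j → v i * v j ^ 2 - 2 * v i ^ 2 * v j + 1 ≠ 0 := by
    intro i j hij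
    have hi := hv3 i
    have hj := hv3 j
    rcases hratio i j hij with h | h
    · have : 0 < v i * v j ^ 2 - 2 * v i ^ 2 * v j + 1 := by
        have : v i * v j ^ 2 - 2 * v i ^ 2 * v j = v i * v j * (v j - 2 * v i) := by ring
        rw [this]
        have : 0 < v i * v j * (v j - 2 * v i) := by
          have := hv0 i
          have := hv0 j
          have : 0 < v j - 2 * v i := by linarith
          positivity
        linarith
      exact this.ne'
    · have h9 : 9 ≤ v i * v j := by nlinarith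
      have : v i * v j ^ 2 - 2 * v i ^ 2 * v j = -(v i * v j * (2 * v i - v j)) := by ring
      have h4 : 1 ≤ 2 * v i - v j := by linarith
      have : 9 ≤ v i * v j * (2 * v i - v j) := by nlinarith
      intro h0
      linarith
  have c3a : ∀ᶠ τ in 𝓝[>] (0 : ℝ), ∀ i, ∀ w ∈ T0, ∃ s, s ∉ T τ ∧
      Dp (v i) τ ((X - C w) ^ 2 * (X - C s) ^ 2) < 0 := by
    rw [eventually_all]
    intro i
    rw [Filter.eventually_all_finset]
    intro w hw
    have hgenw : v i * w ^ 2 - 2 * v i ^ 2 * w + 1 ≠ 0 := by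
      rcases Finset.mem_union.1 hw with hw | hw
      · obtain ⟨k, l, hkl, _, rfl⟩ := (hTg w).1 hw
        exact hgen i k l hkl
      · have h1 := hTn w hw
        have h2 := hv0 i
        have : 0 < v i * w ^ 2 - 2 * v i ^ 2 * w + 1 := by
          have : 0 ≤ v i * w ^ 2 := by positivity
          have : 0 ≤ 2 * v i ^ 2 * (-w) := by
            have : 0 ≤ -w := by linarith
            positivity
          linarith
        exact this.ne'
    obtain ⟨s, hs1, hs2⟩ := exists_neg (v i) w (hv0 i) hgenw Tstar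
    filter_upwards [hsT s hs1, hcont i s (fun _ => w) continuous_const hs2] with τ k1 k2
    exact ⟨s, k1, k2⟩
  have c3b : ∀ᶠ τ in 𝓝[>] (0 : ℝ), ∀ i j, i ≠ j →
      (∃ s, s ∉ T τ ∧ Dp (v i) τ ((X - C (v j - τ)) ^ 2 * (X - C s) ^ 2) < 0) ∧
      ∃ s, s ∉ T τ ∧ Dp (v i) τ ((X - C (v j + τ)) ^ 2 * (X - C s) ^ 2) < 0 := by
    rw [eventually_all]
    intro i
    rw [eventually_all]
    intro j
    by_cases hij : i = j
    · exact Eventually.of_forall fun _ h => absurd hij h
    · obtain ⟨s, hs1, hs2⟩ := exists_neg (v i) (v j) (hv0 i) (hTij i j hij) Tstar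
      have h1 := hcont i s (fun τ => v j - τ) (by fun_prop) (by simpa using hs2)
      have h2 := hcont i s (fun τ => v j + τ) (by fun_prop) (by simpa using hs2)
      filter_upwards [hsT s hs1, h1, h2] with τ k1 k2 k3 _
      exact ⟨⟨s, k1, k2⟩, ⟨s, k1, k3⟩⟩

  -- edges of G
  have hval1 : ∀ i j δ τ, Dp (v i) τ (Mq (v j) τ * (C 1 * X ^ 2 + C (-2 * (1 / (v i * v j))) * X +
      C ((1 / (v i * v j)) ^ 2 - δ))) = -δ * (v j ^ 2 - v j / v i ^ 2)
        - τ ^ 2 * (((1 / (v i * v j)) ^ 2 - δ) + (-2 * (1 / (v i * v j))) / (2 * v i ^ 2)) +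
      τ * (((1 + v j) ^ 2 - τ ^ 2) * (1 - (-2 * (1 / (v i * v j))) +
        ((1 / (v i * v j)) ^ 2 - δ)) + ((2 + v j) ^ 2 - τ ^ 2) *
        (4 * 1 - 2 * (-2 * (1 / (v i * v j))) + ((1 / (v i * v j)) ^ 2 - δ))) := by
    intro i j δ τ
    have hi := (hv0 i).ne'
    have hj := (hv0 j).ne'
    rw [Dp_Mq_mul]
    have : Dexp (v i) (-2 * v j) (v j ^ 2) 1 (-2 * (1 / (v i * v j)))
        ((1 / (v i * v j)) ^ 2 - δ) = -δ * (v j ^ 2 - v j / v i ^ 2) := by
      unfold Dexp
      field_simp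
      ring
    rw [this]
  have c4 : ∀ᶠ τ in 𝓝[>] (0 : ℝ), ∀ i j, G.Adj i j → ∃ q : ℝ[X], q.natDegree ≤ 2 ∧
      (∀ w ∈ T τ, 0 < q.eval w) ∧
      Dp (v i) τ (Mq (v j) τ * q) < 0 ∧ Dp (v j) τ (Mq (v i) τ * q) < 0 := by
    rw [eventually_all]
    intro i
    rw [eventually_all]
    intro j
    by_cases hij : G.Adj i j
    swap
    · exact Eventually.of_forall fun _ h => absurd h hij
    have hne := hij.ne
    set g : ℝ := 1 / (v i * v j) with hg
    have hgT : ∀ w ∈ Tstar, w ≠ g := by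
      intro w hw hwg
      simp only [Tstar, T0, Finset.mem_union, Finset.mem_image, Finset.mem_univ, true_and] at hw
      rcases hw with (hw | hw) | ⟨k, hk⟩
      · obtain ⟨k, l, hkl, hna, hw2⟩ := (hTg w).1 hw
        have h1 : v i * v j = v k * v l := by
          have h2 : 1 / (v i * v j) = 1 / (v k * v l) := by rw [← hg, ← hwg, hw2]
          rw [one_div, one_div] at h2
          exact inv_injective h2
        rcases hprod i j k l hne hkl h1 with ⟨rfl, rfl⟩ | ⟨rfl, rfl⟩
        · exact hna hij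
        · exact hna hij.symm
      · have := hTn w hw
        have := (hg01 i j).1
        linarith
      · have := hv3 k
        have := (hg01 i j).2
        linarith
    have hδ : ∀ᶠ δ in 𝓝[>] (0 : ℝ), ∀ w ∈ Tstar, 0 < (w - g) ^ 2 - δ := by
      rw [Filter.eventually_all_finset]
      intro w hw
      apply evpos (fun δ => (w - g) ^ 2 - δ) (by fun_prop)
      have := sub_ne_zero.2 (hgT w hw)
      simp only [sub_zero]
      positivity
    obtain ⟨δ, hδT, hδ0'⟩ := (hδ.and self_mem_nhdsWithin).exists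
    have hδ0 : 0 < δ := hδ0'
    have hA : ∀ k l, k ≠ l → 0 < v l ^ 2 - v l / v k ^ 2 := by
      intro k l _
      have hk := hv3 k
      have hl := hv3 l
      have h1 : v l / v k ^ 2 < v l ^ 2 := by
        rw [div_lt_iff₀ (by have := hv0 k; positivity)]
        have : 1 < v l * v k ^ 2 := by nlinarith
        nlinarith
      linarith
    have k1 := evpos (fun τ => -(-δ * (v j ^ 2 - v j / v i ^ 2)
        - τ ^ 2 * (((1 / (v i * v j)) ^ 2 - δ) + (-2 * (1 / (v i * v j))) / (2 * v i ^ 2)) +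
      τ * (((1 + v j) ^ 2 - τ ^ 2) * (1 - (-2 * (1 / (v i * v j))) +
        ((1 / (v i * v j)) ^ 2 - δ)) + ((2 + v j) ^ 2 - τ ^ 2) *
        (4 * 1 - 2 * (-2 * (1 / (v i * v j))) + ((1 / (v i * v j)) ^ 2 - δ)))))
      (by fun_prop) (by
        have := mul_pos hδ0 (hA i j hne)
        norm_num
        linarith)
    have k2 := evpos (fun τ => -(-δ * (v i ^ 2 - v i / v j ^ 2)
        - τ ^ 2 * (((1 / (v j * v i)) ^ 2 - δ) + (-2 * (1 / (v j * v i))) / (2 * v j ^ 2)) +
      τ * (((1 + v i) ^ 2 - τ ^ 2) * (1 - (-2 * (1 / (v j * v i))) +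
        ((1 / (v j * v i)) ^ 2 - δ)) + ((2 + v i) ^ 2 - τ ^ 2) *
        (4 * 1 - 2 * (-2 * (1 / (v j * v i))) + ((1 / (v j * v i)) ^ 2 - δ)))))
      (by fun_prop) (by
        have := mul_pos hδ0 (hA j i hne.symm)
        norm_num
        linarith)
    have k3 : ∀ᶠ τ in 𝓝[>] (0 : ℝ), ∀ k, 0 < (v k - τ - g) ^ 2 - δ ∧
        0 < (v k + τ - g) ^ 2 - δ := by
      rw [eventually_all]
      intro k
      have hk : v k ∈ Tstar := by simp [Tstar]
      have h0 := hδT _ hk
      have h1 := evpos (fun τ => (v k - τ - g) ^ 2 - δ) (by fun_prop) (by simpa using h0)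
      have h2 := evpos (fun τ => (v k + τ - g) ^ 2 - δ) (by fun_prop) (by simpa using h0)
      filter_upwards [h1, h2] with τ a1 a2 using ⟨a1, a2⟩
    filter_upwards [k1, k2, k3] with τ m1 m2 m3 _
    refine ⟨C 1 * X ^ 2 + C (-2 * g) * X + C (g ^ 2 - δ), natDegree_quadratic_le, ?_, ?_, ?_⟩
    · intro w hw
      have hev : (C 1 * X ^ 2 + C (-2 * g) * X + C (g ^ 2 - δ) : ℝ[X]).eval w =
          (w - g) ^ 2 - δ := by
        simp only [eval_add, eval_mul, eval_C, eval_pow, eval_X]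
        ring
      rw [hev]
      rcases (hmemT τ w).1 hw with h | ⟨k, rfl⟩ | ⟨k, rfl⟩
      · exact hδT w (by simp only [Tstar, Finset.mem_union]; exact Or.inl h)
      · exact (m3 k).1
      · exact (m3 k).2
    · rw [hval1]
      linarith
    · have hg2 : g = 1 / (v j * v i) := by rw [hg, mul_comm]
      rw [hg2, hval1]
      linarith
  -- non-edges of G
  have c5a : ∀ i j, 2 * v i < v j → ¬ G.Adj i j → i ≠ j → ∃ a b : ℝ, 0 < a ∧ 0 < b ∧
      ∀ᶠ τ in 𝓝[>] (0 : ℝ), ∃ N : Finset ℝ, N ⊆ T τ ∧ N.card = 3 ∧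
      (∀ w ∈ N, w < 1) ∧
      ∀ w ∈ N, ∃ q : ℝ[X], q.natDegree ≤ 2 ∧ 0 < q.eval w ∧
        (∀ w' ∈ N, w' ≠ w → q.eval w' = 0) ∧
        0 < a * Dp (v i) τ (Mq (v j) τ * q) + b * Dp (v j) τ (Mq (v i) τ * q) := by
    intro i j hlt hna hij
    obtain ⟨a, b, ha, hb, hev⟩ := nonedge_ineq (v i) (v j) (hv3 i) hlt
    refine ⟨a, b, ha, hb, ?_⟩
    filter_upwards [hev] with τ ⟨k0, k1, k2⟩
    have hg := hg01 i j
    have hgT0 : 1 / (v i * v j) ∈ T0 := by
      simp only [T0, Finset.mem_union]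
      exact Or.inl ((hTg _).2 ⟨i, j, hij, hna, rfl⟩)
    set g : ℝ := 1 / (v i * v j) with hgdef
    refine ⟨{g, -1, -2}, ?_, ?_, ?_, ?_⟩
    · intro w hw
      simp only [Finset.mem_insert, Finset.mem_singleton] at hw
      rw [hmemT]
      left
      rcases hw with rfl | rfl | rfl
      · exact hgT0
      · exact Finset.mem_union_right _ hTn1
      · exact Finset.mem_union_right _ hTn2
    · rw [Finset.card_insert_of_notMem, Finset.card_insert_of_notMem, Finset.card_singleton]
      · simp only [Finset.mem_singleton]; norm_num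
      · simp only [Finset.mem_insert, Finset.mem_singleton, not_or]
        constructor <;> intro h <;> linarith [hg.1]
    · intro w hw
      simp only [Finset.mem_insert, Finset.mem_singleton] at hw
      rcases hw with rfl | rfl | rfl
      · exact hg.2
      · norm_num
      · norm_num
    · intro w hw
      simp only [Finset.mem_insert, Finset.mem_singleton] at hw
      rcases hw with rfl | rfl | rfl
      · refine ⟨_, natDegree_quadratic_le, ?_, ?_, k0⟩
        · simp only [eval_add, eval_mul, eval_C, eval_pow, eval_X]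
          have := hg.1
          positivity
        · intro w' hw' hne
          simp only [Finset.mem_insert, Finset.mem_singleton] at hw'
          rcases hw' with rfl | rfl | rfl
          · exact absurd rfl hne
          · simp only [eval_add, eval_mul, eval_C, eval_pow, eval_X]; norm_num
          · simp only [eval_add, eval_mul, eval_C, eval_pow, eval_X]; norm_num
      · refine ⟨_, natDegree_quadratic_le, ?_, ?_, k1⟩
        · simp only [eval_add, eval_mul, eval_C, eval_pow, eval_X]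
          have := hg.1
          nlinarith
        · intro w' hw' hne
          simp only [Finset.mem_insert, Finset.mem_singleton] at hw'
          rcases hw' with rfl | rfl | rfl
          · simp only [eval_add, eval_mul, eval_C, eval_pow, eval_X]; ring
          · exact absurd rfl hne
          · simp only [eval_add, eval_mul, eval_C, eval_pow, eval_X]; ring
      · refine ⟨_, natDegree_quadratic_le, ?_, ?_, k2⟩
        · simp only [eval_add, eval_mul, eval_C, eval_pow, eval_X]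
          have := hg.1
          nlinarith
        · intro w' hw' hne
          simp only [Finset.mem_insert, Finset.mem_singleton] at hw'
          rcases hw' with rfl | rfl | rfl
          · simp only [eval_add, eval_mul, eval_C, eval_pow, eval_X]; ring
          · simp only [eval_add, eval_mul, eval_C, eval_pow, eval_X]; ring
          · exact absurd rfl hne
  have c5 : ∀ᶠ τ in 𝓝[>] (0 : ℝ), ∀ i j, i ≠ j → ¬ G.Adj i j → ∃ a b : ℝ, 0 < a ∧ 0 < b ∧
      ∃ N : Finset ℝ, N ⊆ T τ ∧ N.card = 3 ∧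
      (∀ w ∈ N, w < 1) ∧
      ∀ w ∈ N, ∃ q : ℝ[X], q.natDegree ≤ 2 ∧ 0 < q.eval w ∧
        (∀ w' ∈ N, w' ≠ w → q.eval w' = 0) ∧
        0 < a * Dp (v i) τ (Mq (v j) τ * q) + b * Dp (v j) τ (Mq (v i) τ * q) := by
    rw [eventually_all]
    intro i
    rw [eventually_all]
    intro j
    by_cases hij : i = j
    · exact Eventually.of_forall fun _ h => absurd hij h
    by_cases hadj : G.Adj i j
    · exact Eventually.of_forall fun _ _ h => absurd hadj h
    rcases hratio i j hij with h | h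
    · obtain ⟨a, b, ha, hb, hev⟩ := c5a i j h hadj hij
      filter_upwards [hev] with τ k _ _
      exact ⟨a, b, ha, hb, k⟩
    · obtain ⟨a, b, ha, hb, hev⟩ := c5a j i h (fun hh => hadj hh.symm) (Ne.symm hij)
      filter_upwards [hev] with τ ⟨N, n1, n2, n3, n4⟩ _ _
      refine ⟨b, a, hb, ha, N, n1, n2, n3, fun w hw => ?_⟩
      obtain ⟨q, q1, q2, q3, q4⟩ := n4 w hw
      exact ⟨q, q1, q2, q3, by linarith⟩
  have c6 : ∀ᶠ τ in 𝓝[>] (0 : ℝ), τ < 1 := by
    have := evpos (fun τ => 1 - τ) (by fun_prop) (by norm_num)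
    filter_upwards [this] with τ h
    linarith
  obtain ⟨τ, k1, k2, k3a, k3b, k4, k5, k6, hτ'⟩ :=
    (c1.and (c2.and (c3a.and (c3b.and (c4.and (c5.and (c6.and self_mem_nhdsWithin))))))).exists
  have hτ : 0 < τ := hτ'
  refine level2 G v τ hτ (T τ) (fun i => Dp (v i) τ) ?_ ?_ ?_ ?_ ?_ ?_ ?_ k4 ?_
  · intro i
    exact (hmemT τ _).2 (Or.inr (Or.inl ⟨i, rfl⟩))
  · intro i
    exact (hmemT τ _).2 (Or.inr (Or.inr ⟨i, rfl⟩))
  · intro i w hw hw1 hw2
    rcases (hmemT τ w).1 hw with h | ⟨j, rfl⟩ | ⟨j, rfl⟩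
    · exact k1 i w h
    · have hij : i ≠ j := by rintro rfl; exact hw1 rfl
      exact (k2 i j hij).1
    · have hij : i ≠ j := by rintro rfl; exact hw2 rfl
      exact (k2 i j hij).2.1
  · intro i j hij
    refine ⟨?_, (k2 i j hij).2.2, ?_⟩
    · intro h; exact hvinj i j hij (by linarith)
    · intro h; exact hvinj i j hij (by linarith)
  · rw [← hTncard]
    apply Finset.card_le_card
    intro w hw
    rw [hmemT]
    exact Or.inl (Finset.mem_union_right _ hw)
  · intro i
    change 0 < Dp (v i) τ 1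
    rw [Dp_apply]
    have : Dfun (v i) 1 = 1 := by
      have := Dfun_quad (v i) 0 0 1
      simpa using this
    rw [this]
    simp only [eval_one]
    linarith
  · intro i w hw hw1 hw2
    rcases (hmemT τ w).1 hw with h | ⟨j, rfl⟩ | ⟨j, rfl⟩
    · exact k3a i w h
    · have hij : i ≠ j := by rintro rfl; exact hw1 rfl
      exact (k3b i j hij).1
    · have hij : i ≠ j := by rintro rfl; exact hw2 rfl
      exact (k3b i j hij).2
  · intro i j hij hna
    obtain ⟨a, b, ha, hb, N, n1, n2, n3, n4⟩ := k5 i j hij hna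
    refine ⟨a, b, ha, hb, N, n1, n2, ?_, n4⟩
    intro w hw
    have := n3 w hw
    have := hv3 i
    have := hv3 j
    refine ⟨⟨?_, ?_⟩, ⟨?_, ?_⟩⟩ <;> intro h <;> linarith

theorem two_pow_sum {i j k l : ℕ} (hij : i ≠ j) (hkl : k ≠ l)
    (h : 2 ^ i + 2 ^ j = 2 ^ k + 2 ^ l) : (i = k ∧ j = l) ∨ (i = l ∧ j = k) := by
  have main : ∀ a b c d : ℕ, a < b → c < d → 2 ^ a + 2 ^ b = 2 ^ c + 2 ^ d → a = c ∧ b = d := by
    intro a b c d hab hcd h
    have h1 : 2 ^ a < 2 ^ b := Nat.pow_lt_pow_right (by norm_num) hab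
    have h2 : 2 ^ c < 2 ^ d := Nat.pow_lt_pow_right (by norm_num) hcd
    have ha : 0 < 2 ^ a := by positivity
    have hc : 0 < 2 ^ c := by positivity
    have hbd : b = d := by
      rcases lt_trichotomy b d with h3 | h3 | h3
      · exfalso
        have : 2 ^ (b + 1) ≤ 2 ^ d := Nat.pow_le_pow_right (by norm_num) h3
        rw [pow_succ] at this
        omega
      · exact h3
      · exfalso
        have : 2 ^ (d + 1) ≤ 2 ^ b := Nat.pow_le_pow_right (by norm_num) h3
        rw [pow_succ] at this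
        omega
    subst hbd
    have : 2 ^ a = 2 ^ c := by omega
    exact ⟨Nat.pow_right_injective le_rfl this, rfl⟩
  rcases lt_or_gt_of_ne hij with h1 | h1 <;> rcases lt_or_gt_of_ne hkl with h2 | h2
  · exact Or.inl (main i j k l h1 h2 h)
  · have := main i j l k h1 h2 (by omega)
    exact Or.inr this
  · have := main j i k l h1 h2 (by omega)
    exact Or.inr ⟨this.2, this.1⟩
  · have := main j i l k h1 h2 (by omega)
    exact Or.inl ⟨this.2, this.1⟩

theorem int_ne (a p : ℤ) (ha : 2 ≤ a) : a - 2 * a ^ 2 * p + p ^ 2 ≠ 0 := by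
  intro h
  have h1 : (p - a ^ 2) ^ 2 = a ^ 4 - a := by linear_combination h
  have h2 : (p - a ^ 2) ^ 2 < (a ^ 2) ^ 2 := by rw [h1]; nlinarith
  have h3 : (a ^ 2 - 1) ^ 2 < (p - a ^ 2) ^ 2 := by rw [h1]; nlinarith
  have h4 := sq_lt_sq.1 h2
  have h5 := sq_lt_sq.1 h3
  have h6 : |a ^ 2| = a ^ 2 := abs_of_nonneg (by positivity)
  have h7 : |a ^ 2 - 1| = a ^ 2 - 1 := abs_of_nonneg (by nlinarith)
  omega

theorem upper {V : Type} [Fintype V] (G : SimpleGraph V) :
    ∃ n ≥ 1, IsPolytopal 6 (joinComplete G n) := by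
  classical
  let e := Fintype.equivFin V
  let a : V → ℕ := fun i => 3 ^ 2 ^ (e i).val
  have ha3 : ∀ i, 3 ≤ a i := by
    intro i
    calc 3 = 3 ^ 1 := by norm_num
      _ ≤ 3 ^ 2 ^ (e i).val := Nat.pow_le_pow_right (by norm_num) (Nat.one_le_two_pow)
  have hlt : ∀ i j, (e i).val < (e j).val → 2 * a i < a j := by
    intro i j h
    have h1 : 2 ^ (e i).val < 2 ^ (e j).val := Nat.pow_lt_pow_right (by norm_num) h
    have h2 : 3 ^ (2 ^ (e i).val + 1) ≤ 3 ^ 2 ^ (e j).val :=
      Nat.pow_le_pow_right (by norm_num) h1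
    rw [pow_succ] at h2
    have h3 : 0 < 3 ^ 2 ^ (e i).val := by positivity
    change 2 * 3 ^ 2 ^ (e i).val < 3 ^ 2 ^ (e j).val
    omega
  refine level3 G (fun i => (a i : ℝ)) ?_ ?_ ?_ ?_
  · intro i
    exact_mod_cast ha3 i
  · intro i j hij
    have hne : (e i).val ≠ (e j).val := fun h => hij (e.injective (Fin.ext h))
    rcases lt_or_gt_of_ne hne with h | h
    · left; exact_mod_cast hlt i j h
    · right; exact_mod_cast hlt j i h
  · intro i j k l hij hkl h
    have hN : a i * a j = a k * a l := by exact_mod_cast h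
    simp only [a, ← pow_add] at hN
    have h2 := Nat.pow_right_injective (le_refl 2 |>.trans (by norm_num : 2 ≤ 3)) hN
    have h3 := two_pow_sum (fun h => hij (e.injective (Fin.ext h)))
      (fun h => hkl (e.injective (Fin.ext h))) h2
    rcases h3 with ⟨h4, h5⟩ | ⟨h4, h5⟩
    · exact Or.inl ⟨e.injective (Fin.ext h4), e.injective (Fin.ext h5)⟩
    · exact Or.inr ⟨e.injective (Fin.ext h4), e.injective (Fin.ext h5)⟩
  · intro i k l _ h
    have hk : (a k : ℝ) ≠ 0 := by
      have := ha3 k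
      positivity
    have hl : (a l : ℝ) ≠ 0 := by
      have := ha3 l
      positivity
    have h1 : (a i : ℝ) - 2 * (a i : ℝ) ^ 2 * ((a k : ℝ) * a l) + ((a k : ℝ) * a l) ^ 2 = 0 := by
      field_simp at h
      linarith
    have h2 : (a i : ℤ) - 2 * (a i : ℤ) ^ 2 * ((a k : ℤ) * a l) + ((a k : ℤ) * a l) ^ 2 = 0 := by
      exact_mod_cast h1
    exact int_ne (a i) ((a k : ℤ) * a l) (by have := ha3 i; omega) h2

theorem five_clique {d : ℕ} {U : Type} (H : SimpleGraph U) (hH : IsPolytopal d H)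
    (f : Fin 5 → U) (hf : ∀ a b, a ≠ b → H.Adj (f a) (f b)) : 4 ≤ d := by
  obtain ⟨P, p, ⟨S, hS⟩, _, hinj, hext, hadj⟩ := hH
  by_contra hd
  push Not at hd
  have hP : Convex ℝ P := hS ▸ convex_convexHull ℝ _
  set g : Fin 5 → EuclideanSpace ℝ (Fin d) := fun a => p (f a) with hg
  have hfinj : Function.Injective f := by
    intro a b hab
    by_contra hne
    exact (hf a b hne).ne hab
  have hginj : Function.Injective g := hinj.comp hfinj
  have hgext : ∀ a, g a ∈ P.extremePoints ℝ := fun a => hext ▸ mem_range_self (f a)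
  have hgP : ∀ a, g a ∈ P := fun a => extremePoints_subset (hgext a)
  have hnot : ¬ AffineIndependent ℝ g := by
    intro hai
    have h1 := hai.card_le_finrank_succ
    have h2 : Module.finrank ℝ (vectorSpan ℝ (range g)) ≤ d :=
      (Submodule.finrank_le _).trans (by simp)
    simp at h1
    omega
  have key : ∀ J : Set (Fin 5), J.ncard ≤ 2 →
      ¬ (convexHull ℝ (g '' J) ∩ convexHull ℝ (g '' Jᶜ)).Nonempty := by
    rintro J hJ ⟨z, hz1, hz2⟩
    have hcases : J.ncard = 0 ∨ J.ncard = 1 ∨ J.ncard = 2 := by omega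
    rcases hcases with h | h | h
    · rw [Set.ncard_eq_zero] at h
      subst h
      simp at hz1
    · obtain ⟨a, rfl⟩ := Set.ncard_eq_one.1 h
      simp only [image_singleton, convexHull_singleton, mem_singleton_iff] at hz1
      subst hz1
      have hsub : convexHull ℝ (g '' ({a} : Set (Fin 5))ᶜ) ⊆ P := by
        apply convexHull_min _ hP
        rintro _ ⟨b, _, rfl⟩
        exact hgP b
      have h1 := inter_extremePoints_subset_extremePoints_of_subset hsub ⟨hz2, hgext a⟩
      obtain ⟨b, hb, hab⟩ := extremePoints_convexHull_subset h1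
      exact hb (hginj hab)
    · obtain ⟨a, b, hab, rfl⟩ := Set.ncard_eq_two.1 h
      have hexp := ((hadj (f a) (f b)).1 (hf a b hab)).2
      have hseg : z ∈ segment ℝ (g a) (g b) := by
        rw [image_pair, convexHull_pair] at hz1
        exact hz1
      obtain ⟨l, hl⟩ := hexp ⟨g a, left_mem_segment ℝ _ _⟩
      have hz : z ∈ {x ∈ P | ∀ y ∈ P, l y ≤ l x} := hl ▸ hseg
      have hsub : convexHull ℝ (g '' ({a, b} : Set (Fin 5))ᶜ) ⊆ {x | l x < l z} := by
        apply convexHull_min _ (convex_halfSpace_lt l.isLinear _)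
        rintro _ ⟨c, hc, rfl⟩
        have h1 : l (g c) ≤ l z := hz.2 _ (hgP c)
        rcases lt_or_eq_of_le h1 with h2 | h2
        · exact h2
        · exfalso
          have h3 : g c ∈ segment ℝ (g a) (g b) := by
            change g c ∈ segment ℝ (p (f a)) (p (f b))
            rw [hl]
            exact ⟨hgP c, fun y hy => by rw [h2]; exact hz.2 y hy⟩
          rcases (mem_extremePoints_iff_forall_segment.1 (hgext c)).2 _ (hgP a) _ (hgP b) h3 with
            h4 | h4
          · exact hc (by simp [hginj h4])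
          · exact hc (by simp [hginj h4])
      exact (lt_irrefl (l z)) (hsub hz2)
  obtain ⟨I, hI⟩ := Convex.radon_partition hnot
  have hcard : I.ncard + Iᶜ.ncard = 5 := by
    rw [Set.ncard_add_ncard_compl]; simp
  rcases Nat.lt_or_ge I.ncard 3 with h | h
  · exact key I (by omega) hI
  · apply key Iᶜ (by omega)
    rw [compl_compl, inter_comm]
    exact hI

/-- `d(G)`: the least `d` such that `G + K_n` is `d`-polytopal for some `n ≥ 1`. -/
noncomputable def dJoin {V : Type} (G : SimpleGraph V) : ℕ :=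
  sInf {d | ∃ n ≥ 1, IsPolytopal d (joinComplete G n)}

theorem lower {V : Type} (G : SimpleGraph V) (s : Finset V) (hs : G.IsNClique 4 s)
    (d n : ℕ) (hn : 1 ≤ n) (h : IsPolytopal d (joinComplete G n)) : 4 ≤ d := by
  let e : Fin 4 ≃ s := (Finset.equivFinOfCardEq hs.card_eq).symm
  let f : Fin 5 → V ⊕ Fin n := fun a =>
    if h : a.val = 0 then Sum.inr ⟨0, hn⟩ else Sum.inl (e ⟨a.val - 1, by omega⟩).1
  refine five_clique (joinComplete G n) h f ?_
  intro a b hab
  have hab' : a.val ≠ b.val := fun h => hab (Fin.ext h)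
  by_cases ha : a.val = 0
  · have hb : b.val ≠ 0 := by omega
    simp only [f, ha, hb, dif_pos, dif_neg, not_false_eq_true]
    exact ⟨by simp, fun u v hu _ => by cases hu⟩
  · by_cases hb : b.val = 0
    · simp only [f, ha, hb, dif_pos, dif_neg, not_false_eq_true]
      exact ⟨by simp, fun u v _ hv => by cases hv⟩
    · simp only [f, ha, hb, dif_neg, not_false_eq_true]
      have hne : (e ⟨a.val - 1, by omega⟩).1 ≠ (e ⟨b.val - 1, by omega⟩).1 := by
        intro h1
        have h2 := e.injective (Subtype.ext h1)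
        have h3 := congrArg Fin.val h2
        simp only at h3
        omega
      refine ⟨fun h1 => hne (Sum.inl.inj h1), ?_⟩
      intro u v hu hv
      rw [← Sum.inl.inj hu, ← Sum.inl.inj hv]
      exact hs.isClique (e _).2 (e _).2 hne

/-- For every finite graph `G` the number `d(G)` is at most `6` (and `G + K_n` is `6`-polytopal for
some `n ≥ 1`); if `G` contains a complete graph on four vertices then `d(G)` is at least `4`. -/
theorem result {V : Type} [Fintype V] (G : SimpleGraph V) :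
    (∃ n ≥ 1, IsPolytopal 6 (joinComplete G n)) ∧ dJoin G ≤ 6 ∧
      ((∃ s : Finset V, G.IsNClique 4 s) → 4 ≤ dJoin G) := by
  refine ⟨upper G, Nat.sInf_le (upper G), ?_⟩
  rintro ⟨s, hs⟩
  have hne : {d | ∃ n ≥ 1, IsPolytopal d (joinComplete G n)}.Nonempty := ⟨6, upper G⟩
  obtain ⟨n, hn, h⟩ := Nat.sInf_mem hne
  exact lower G s hs _ n hn h

end Pool.Agent.Results.MP_2da123_co.DimSix
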